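import Pool.Agent.H348R6.GV2

/-! A general form of the construction in `Pool.Agent.H348R6.GV2`: from any family of pairwise
eventually different functions `κ → κ` one gets a `κ`-complete filter over `κ` which contains the
clubs and in which the corresponding sets have no `κ`-sized subfamily with intersection in the
filter.  Under `2 ^ <κ ≤ κ` there are `2 ^ κ` such functions. -/

set_option autoImplicit false

namespace Pool.Agent.W866.GalFilter

open Cardinal Set Pool.Agent.H348R6.GV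

universe u

variable {κ : Cardinal.{u}}

theorem main_gen (hκ : κ.IsRegular) (hω : ℵ₀ < κ) {Λ : Type u}
    (h : Λ → κ.ord.ToType → κ.ord.ToType)
    (hh : ∀ i j, i ≠ j → ∃ b, ∀ a, b ≤ a → h i a ≠ h j a) :
    ∃ F : Filter κ.ord.ToType, F.NeBot ∧
      (∀ S : Set (Set κ.ord.ToType), #S < κ → (∀ s ∈ S, s ∈ F) → ⋂₀ S ∈ F) ∧
      (∀ C, IsClub C → C ∈ F) ∧
      ∃ A : Λ → Set κ.ord.ToType, (∀ i, A i ∈ F) ∧
        ∀ I : Set Λ, κ ≤ #I → ⋂ i ∈ I, A i ∉ F := by
  classical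
  obtain ⟨t, ht, htd⟩ := exists_pieces hκ hω
  have := nonempty_toType hκ
  have hno : ∀ a : κ.ord.ToType, ∃ b, a < b := fun a => by
    obtain ⟨b, hb⟩ := hcU_toType hκ hω (fun _ : PUnit.{u+1} => a)
    exact ⟨b, hb ⟨⟩⟩
  refine ⟨theFilter hκ h t hω, ?_, ?_, ?_, ?_⟩
  · -- proper
    rw [Filter.neBot_iff]
    intro hbot
    have h0 : (∅ : Set κ.ord.ToType) ∈ theFilter hκ h t hω := by rw [hbot]; trivial
    obtain ⟨J, hJ, hJ2⟩ := (mem_theFilter _ _ _ _ _).1 h0
    obtain ⟨x⟩ := nonempty_toType hκ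
    have hy : ∃ y : κ.ord.ToType, ∀ i ∈ J, y ≠ h i x := by
      obtain ⟨y, hy⟩ := bdd_of_lt hκ (fun i : J => h i.1 x) hJ
      exact ⟨y, fun i hi => (hy ⟨i, hi⟩).ne'⟩
    obtain ⟨y, hy⟩ := hy
    have := hJ2 (x, y) hy
    rw [sdiff_empty] at this
    exact ht _ this
  · -- completeness
    intro S hS hSF
    choose! J hJ hJ2 using fun s (hs : s ∈ S) => (mem_theFilter _ _ _ _ _).1 (hSF s hs)
    refine (mem_theFilter _ _ _ _ _).2 ⟨⋃ s : S, J s.1, ?_, fun p hp => ?_⟩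
    · exact (card_iUnion_lt_iff_forall_of_isRegular hκ hS).2 (fun s => hJ s.1 s.2)
    · have h1 : ∀ s : S, Thin (t p \ s.1) := fun s =>
        hJ2 s.1 s.2 p (fun i hi => hp i (mem_iUnion.2 ⟨s, hi⟩))
      refine (thin_iUnion (fun g => bdd_of_lt hκ g hS) h1).mono ?_
      rintro a ⟨ha, haS⟩
      rw [mem_sInter] at haS
      push Not at haS
      obtain ⟨s, hs, has⟩ := haS
      exact mem_iUnion.2 ⟨⟨s, hs⟩, ha, has⟩
  · -- clubs
    intro C hC
    refine (mem_theFilter _ _ _ _ _).2 ⟨∅, by simpa using hκ.pos, fun p _ => ?_⟩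
    exact (thin_compl_of_isClub hno hC).mono (fun a ha => ha.2)
  · -- not Galvin
    refine ⟨fun i => (⋃ x, t (x, h i x))ᶜ, fun i => ?_, fun I hI hF => ?_⟩
    · refine (mem_theFilter _ _ _ _ _).2 ⟨{i}, ?_, fun p hp => ?_⟩
      · simpa using one_lt_aleph0.trans_le hκ.aleph0_le
      · have hp' := hp i rfl
        refine thin_empty.mono ?_
        rintro a ⟨ha, ha2⟩
        simp only [mem_compl_iff, not_not, mem_iUnion] at ha2
        obtain ⟨x, hx⟩ := ha2
        have hne : p ≠ (x, h i x) := by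
          rintro rfl
          exact hp' rfl
        exact absurd hx (Set.disjoint_left.1 (htd _ _ hne) ha)
    · obtain ⟨J, hJ, hJ2⟩ := (mem_theFilter _ _ _ _ _).1 hF
      have hex : ∃ i ∈ I, i ∉ J := by
        by_contra hcon
        push Not at hcon
        have := mk_le_mk_of_subset (s := I) (t := J) hcon
        exact absurd ((hI.trans this).trans_lt hJ) (lt_irrefl _)
      obtain ⟨i, hiI, hiJ⟩ := hex
      have hb : ∀ j : J, ∃ b, ∀ a, b ≤ a → h i a ≠ h j.1 a := by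
        rintro ⟨j, hj⟩
        exact hh i j (fun hij => hiJ (hij ▸ hj))
      choose b hb using hb
      obtain ⟨x, hx⟩ := bdd_of_lt hκ b hJ
      have h1 := hJ2 (x, h i x) (fun j hj => hb ⟨j, hj⟩ x (hx ⟨j, hj⟩).le)
      refine ht (x, h i x) (h1.mono ?_)
      intro a ha
      refine ⟨ha, fun ha2 => ?_⟩
      have ha3 := mem_iInter₂.1 ha2 i hiI
      exact ha3 (mem_iUnion.2 ⟨x, ha⟩)

/-- Under `2 ^ <κ ≤ κ` there are `2 ^ κ` pairwise eventually different functions. -/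
theorem exists_ev_diff (hκ : κ.IsRegular) (h2 : ∀ μ < κ, (2 : Cardinal.{u}) ^ μ ≤ κ) :
    ∃ h : Set κ.ord.ToType → κ.ord.ToType → κ.ord.ToType,
      ∀ i j, i ≠ j → ∃ b, ∀ a, b ≤ a → h i a ≠ h j a := by
  classical
  have hno : ∀ a : κ.ord.ToType, ∃ b, a < b := fun a => by
    obtain ⟨b, hb⟩ := bdd_of_lt hκ (fun _ : PUnit.{u+1} => a)
      (by simpa using one_lt_aleph0.trans_le hκ.aleph0_le)
    exact ⟨b, hb ⟨⟩⟩
  have he : ∀ a : κ.ord.ToType, Nonempty (Set (Iio a) ↪ κ.ord.ToType) := fun a => by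
    have h3 : #(Set (Iio a)) ≤ #κ.ord.ToType := by
      rw [mk_set, Cardinal.mk_toType, card_ord]
      exact h2 _ (mk_Iio_toType_ord_lt a)
    exact h3
  let e : ∀ a : κ.ord.ToType, Set (Iio a) ↪ κ.ord.ToType := fun a => (he a).some
  refine ⟨fun X a => e a {x | x.1 ∈ X}, fun X Y hXY => ?_⟩
  have : ∃ c, ¬ (c ∈ X ↔ c ∈ Y) := by
    by_contra hcon
    push Not at hcon
    exact hXY (Set.ext hcon)
  obtain ⟨c, hc⟩ := this
  obtain ⟨b, hb⟩ := hno c
  refine ⟨b, fun a ha heq => hc ?_⟩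
  have h4 := (e a).injective heq
  have h5 := Set.ext_iff.1 h4 ⟨c, hb.trans_le ha⟩
  exact h5

end Pool.Agent.W866.GalFilter
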