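import Pool.Agent.W866.Tk5

/-! The dichotomy and clubs. -/

set_option autoImplicit false

namespace Pool.Agent.W866.Tk

open Cardinal Set Filter

universe u

section

variable {K : Type u} [LinearOrder K]

/-- Closed unbounded subsets. -/
def Club (C : Set K) : Prop :=
  (∀ a, ∃ c ∈ C, a < c) ∧ ∀ s : Set K, s ⊆ C → s.Nonempty → ∀ c, IsLUB s c → c ∈ C

/-- Limits of strictly increasing `ω`-sequences. -/
def Lim (K : Type u) [LinearOrder K] : Set K :=
  {c | ∃ s : ℕ → K, StrictMono s ∧ IsLUB (range s) c}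

theorem list_below {s : Set K} (hs : s.Nonempty) {c : K} (hc : IsLUB s c) :
    ∀ l : List K, (∀ b ∈ l, b < c) → ∃ d ∈ s, ∀ b ∈ l, b < d := by
  intro l
  induction l with
  | nil =>
    intro _
    obtain ⟨d, hd⟩ := hs
    exact ⟨d, hd, fun b hb => absurd hb (by simp)⟩
  | cons a l ih =>
    intro h
    obtain ⟨d, hd, hd2⟩ := ih fun b hb => h b (List.mem_cons_of_mem _ hb)
    obtain ⟨e, he, hae, -⟩ := hc.exists_between (h a List.mem_cons_self)
    rcases le_total d e with hde | hde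
    · refine ⟨e, he, fun b hb => ?_⟩
      rcases List.mem_cons.1 hb with rfl | hb
      · exact hae
      · exact (hd2 b hb).trans_le hde
    · refine ⟨d, hd, fun b hb => ?_⟩
      rcases List.mem_cons.1 hb with rfl | hb
      · exact hae.trans_le hde
      · exact hd2 b hb

variable [WellFoundedLT K] {U : Ultrafilter K}

theorem Nm.bdd (hU : Nm U) {ι : Type u} (hι : #ι < #K) (g : ι → K) : ∃ b, ∀ i, g i < b := by
  obtain ⟨b, hb⟩ := U.nonempty_of_mem
    (hU.cpl ι (fun i => Ioi (g i)) hι (fun i => hU.Ioi_mem (g i)))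
  exact ⟨b, fun i => mem_iInter.1 hb i⟩

theorem Nm.exists_lub (hU : Nm U) (s : ℕ → K) : ∃ c, IsLUB (range s) c := by
  obtain ⟨b, hb⟩ := hU.bdd (ι := ULift.{u} ℕ) (by simpa using hU.unc) (fun n => s n.down)
  have hne : (upperBounds (range s)).Nonempty :=
    ⟨b, by rintro _ ⟨n, rfl⟩; exact (hb ⟨n⟩).le⟩
  refine ⟨wellFounded_lt.min _ hne, wellFounded_lt.min_mem _ hne, fun d hd => ?_⟩
  exact not_lt.1 (wellFounded_lt.not_lt_min _ hd)

theorem Nm.no_max (hU : Nm U) (a : K) : ∃ b, a < b := by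
  obtain ⟨b, hb⟩ := U.nonempty_of_mem (hU.Ioi_mem a)
  exact ⟨b, hb⟩

theorem Nm.club_mem (hU : Nm U) {C : Set K} (hC : Club C) : C ∈ U := by
  obtain ⟨hC1, hC2⟩ := hC
  choose c hcC hc using hC1
  obtain ⟨a₀, -⟩ := U.nonempty_of_mem univ_mem
  have h1 := inter_mem (hU.diag (fun a => Ioi (c a)) (fun a => hU.Ioi_mem (c a)))
    (hU.Ioi_mem a₀)
  refine mem_of_superset h1 ?_
  rintro x ⟨hx, hx0⟩
  refine hC2 (C ∩ Iio x) inter_subset_left ⟨c a₀, hcC a₀, hx a₀ hx0⟩ x ⟨?_, ?_⟩
  · rintro y ⟨-, hy⟩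
    exact le_of_lt hy
  · intro b hb
    by_contra hcon
    push Not at hcon
    have h2 : c b < x := hx b hcon
    have h3 : c b ≤ b := hb ⟨hcC b, h2⟩
    exact absurd (hc b) (not_lt.2 h3)

omit [LinearOrder K] [WellFoundedLT K] in
theorem pow_forall {A : Set K} (hA : A ∈ U) (n : ℕ) : {l | ∀ b ∈ l, b ∈ A} ∈ pow U n := by
  induction n with
  | zero =>
    rw [mem_pow_zero]
    intro b hb
    exact absurd hb (by simp)
  | succ n ih =>
    rw [mem_pow_succ]
    refine mem_of_superset hA fun a ha => ?_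
    refine mem_of_superset ih fun l hl => ?_
    intro b hb
    rcases List.mem_cons.1 hb with rfl | hb
    · exact ha
    · exact hl b hb

theorem pow_sorted (hU : Nm U) (n : ℕ) :
    ∀ a, {l : List K | l.Pairwise (· < ·) ∧ ∀ b ∈ l, a < b} ∈ pow U n := by
  induction n with
  | zero =>
    intro a
    rw [mem_pow_zero]
    exact ⟨List.Pairwise.nil, fun b hb => absurd hb (by simp)⟩
  | succ n ih =>
    intro a
    rw [mem_pow_succ]
    refine mem_of_superset (hU.Ioi_mem a) fun b hb => ?_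
    refine mem_of_superset (ih b) ?_
    rintro l ⟨hl, hl2⟩
    refine ⟨List.pairwise_cons.2 ⟨hl2, hl⟩, fun d hd => ?_⟩
    rcases List.mem_cons.1 hd with rfl | hd
    · exact hb
    · exact lt_trans hb (hl2 d hd)

theorem seq_mem {X : Type u} {V : Ultrafilter X} (hV : Cpl #K (V : Filter X)) (hU : Nm U)
    {h : X → ℕ → K}
    (hh : ∀ n, V.map (fun x => List.ofFn (fun i : Fin n => h x i)) = pow U n)
    {A : Set K} (hA : A ∈ U) : {x | ∀ n, h x n ∈ A} ∈ V := by
  have h1 : ∀ n, {x | h x n ∈ A} ∈ V := by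
    intro n
    have h2 := pow_forall hA (n+1)
    rw [← hh (n+1)] at h2
    have h3 : (fun x => List.ofFn (fun i : Fin (n+1) => h x i)) ⁻¹'
      {l | ∀ b ∈ l, b ∈ A} ∈ V := h2
    refine mem_of_superset h3 fun x hx => ?_
    refine hx (h x n) (List.mem_ofFn.2 ⟨Fin.last n, ?_⟩)
    rw [Fin.val_last]
  refine mem_of_superset (hV.count hU.unc _ h1) ?_
  intro x hx n
  exact mem_iInter.1 hx n

theorem seq_strictMono {X : Type u} {V : Ultrafilter X} (hV : Cpl #K (V : Filter X))
    (hU : Nm U) {h : X → ℕ → K}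
    (hh : ∀ n, V.map (fun x => List.ofFn (fun i : Fin n => h x i)) = pow U n) :
    {x | StrictMono (h x)} ∈ V := by
  obtain ⟨a₀, -⟩ := U.nonempty_of_mem univ_mem
  have h1 : ∀ n, {x | (List.ofFn (fun i : Fin n => h x i)).Pairwise (· < ·)} ∈ V := by
    intro n
    have h2 := pow_sorted hU n a₀
    rw [← hh n] at h2
    have h3 : (fun x => List.ofFn (fun i : Fin n => h x i)) ⁻¹'
      {l | l.Pairwise (· < ·) ∧ ∀ b ∈ l, a₀ < b} ∈ V := h2
    exact mem_of_superset h3 fun x hx => hx.1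
  refine mem_of_superset (hV.count hU.unc _ h1) ?_
  intro x hx i j hij
  have h2 : (List.ofFn (fun i : Fin (j+1) => h x i)).Pairwise (· < ·) := mem_iInter.1 hx (j+1)
  rw [List.pairwise_ofFn] at h2
  have h3 := @h2 ⟨i, by omega⟩ ⟨j, by omega⟩ (by simpa using hij)
  exact h3

theorem Nm.lim_notMem (hU : Nm U) : Lim K ∉ U := by
  classical
  intro hL
  have h1 : ∀ c, c ∈ Lim K → ∃ s : ℕ → K, StrictMono s ∧ IsLUB (range s) c := fun c hc => hc
  obtain ⟨a₀, -⟩ := U.nonempty_of_mem univ_mem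
  have : Nonempty K := ⟨a₀⟩
  choose! s hs hs2 using h1
  have h2 : ∀ n, ∃ y, {c | s c n = y} ∈ U := by
    intro n
    refine hU.nor (fun c => s c n) (mem_of_superset hL fun c hc => ?_)
    exact lt_of_lt_of_le (hs c hc (Nat.lt_succ_self n)) ((hs2 c hc).1 ⟨n+1, rfl⟩)
  choose y hy using h2
  have h3 := inter_mem hL (hU.cpl.count hU.unc _ hy)
  obtain ⟨c, hc, hc2⟩ := U.nonempty_of_mem h3
  refine hU.no_small ⟨c, mem_of_superset h3 ?_⟩
  rintro d ⟨hd, hd2⟩
  have h4 : s c = s d := by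
    funext n
    have e1 : s c n = y n := mem_iInter.1 hc2 n
    have e2 : s d n = y n := mem_iInter.1 hd2 n
    rw [e1, e2]
  have h5 := hs2 c hc
  rw [h4] at h5
  exact (hs2 d hd).unique h5

omit [LinearOrder K] [WellFoundedLT K] in
theorem mem_pow_last (n : ℕ) : ∀ {S : Set (List K)},
    S ∈ pow U (n+1) ↔ {l | {a | l ++ [a] ∈ S} ∈ U} ∈ pow U n := by
  induction n with
  | zero =>
    intro S
    rw [mem_pow_succ]
    exact Iff.rfl
  | succ n ih =>
    intro S
    rw [mem_pow_succ, mem_pow_succ]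
    have : ∀ a, {l | a :: l ∈ S} ∈ pow U (n+1) ↔
        {l | a :: l ∈ {l | {a | l ++ [a] ∈ S} ∈ U}} ∈ pow U n := by
      intro a
      rw [ih]
      exact Iff.rfl
    have h2 : {a | {l | a :: l ∈ S} ∈ pow U (n+1)} =
        {a | {l | a :: l ∈ {l | {a | l ++ [a] ∈ S} ∈ U}} ∈ pow U n} := by
      ext a
      exact this a
    rw [h2]

omit [WellFoundedLT K] in
theorem exists_map_val (a : K) (l : List K) (hl : ∀ x ∈ l, x ≤ a) :
    ∃ l' : List (Iic a), l'.map Subtype.val = l := by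
  induction l with
  | nil => exact ⟨[], rfl⟩
  | cons b l ih =>
    obtain ⟨l', hl'⟩ := ih fun x hx => hl x (List.mem_cons_of_mem _ hx)
    exact ⟨⟨b, hl b List.mem_cons_self⟩ :: l', by rw [List.map_cons, hl']⟩

theorem club_closure (hU : Nm U) (φ : List K → K) :
    Club {d : K | ∀ l : List K, (∀ b ∈ l, b < d) → φ l < d} := by
  classical
  constructor
  · intro a
    have h1 : ∀ a : K, ∃ b, a < b ∧ ∀ l : List K, (∀ x ∈ l, x ≤ a) → φ l < b := by
      intro a
      have hc : #(List (Iic a)) < #K := by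
        refine (mk_list_le_max _).trans_lt (max_lt hU.unc (hU.Iic_lt a))
      obtain ⟨b, hb⟩ := hU.bdd hc (fun l => φ (l.map Subtype.val))
      obtain ⟨b', hb'⟩ := hU.no_max a
      refine ⟨max b b', hb'.trans_le (le_max_right _ _), fun l hl => ?_⟩
      obtain ⟨l', rfl⟩ := exists_map_val a l hl
      exact (hb l').trans_le (le_max_left _ _)
    choose nx hnx hnx2 using h1
    let s : ℕ → K := fun n => nx^[n] a
    have hs : ∀ n, s (n+1) = nx (s n) := fun n => Function.iterate_succ_apply' _ _ _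
    have hsm : StrictMono s := strictMono_nat_of_lt_succ fun n => by rw [hs]; exact hnx _
    obtain ⟨c, hc⟩ := hU.exists_lub s
    refine ⟨c, ?_, ?_⟩
    · intro l hl
      obtain ⟨_, ⟨n, rfl⟩, hn⟩ := list_below (range_nonempty s) hc l hl
      have h3 := hnx2 (s n) l (fun b hb => (hn b hb).le)
      rw [← hs] at h3
      exact h3.trans_le (hc.1 ⟨n+1, rfl⟩)
    · have h3 : s 0 < s 1 := hsm Nat.zero_lt_one
      exact h3.trans_le (hc.1 ⟨1, rfl⟩)
  · intro s hs hne c hc l hl
    obtain ⟨d, hd, hd2⟩ := list_below hne hc l hl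
    exact (hs hd l hd2).trans_le (hc.1 hd)

theorem above_mem (hU : Nm U) (l : List K) : {a | ∀ b ∈ l, b < a} ∈ U := by
  induction l with
  | nil => exact mem_of_superset univ_mem fun a _ b hb => absurd hb (by simp)
  | cons c l ih =>
    refine mem_of_superset (inter_mem ih (hU.Ioi_mem c)) ?_
    rintro a ⟨ha, ha2⟩ b hb
    rcases List.mem_cons.1 hb with rfl | hb
    · exact ha2
    · exact ha b hb

theorem no_pow_club (hU : Nm U) (n : ℕ) : ∀ φ : List K → K,
    (∀ C, Club C → {l | φ l ∈ C} ∈ pow U n) → {l | φ l ∈ Lim K} ∉ pow U n := by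
  classical
  induction n with
  | zero =>
    intro φ hφ _
    have h1 : Club (Ioi (φ [])) := by
      constructor
      · intro a
        obtain ⟨b, hb⟩ := hU.no_max (max a (φ []))
        exact ⟨b, (le_max_right _ _).trans_lt hb, (le_max_left _ _).trans_lt hb⟩
      · rintro s hs ⟨x, hx⟩ c hc
        exact lt_of_lt_of_le (hs hx) (hc.1 hx)
    have h2 : φ [] < φ [] := hφ _ h1
    exact lt_irrefl _ h2
  | succ n ih =>
    intro φ hφ hL
    rw [mem_pow_last] at hL
    by_cases h1 : {l | {a | φ (l ++ [a]) < a} ∈ U} ∈ pow U n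
    · have h2 : ∀ l, l ∈ {l | {a | φ (l ++ [a]) < a} ∈ U} →
          ∃ y, {a | φ (l ++ [a]) = y} ∈ U := fun l hl =>
        hU.nor (fun a => φ (l ++ [a])) hl
      obtain ⟨a₀, -⟩ := U.nonempty_of_mem univ_mem
      have : Nonempty K := ⟨a₀⟩
      choose! φ' hφ' using h2
      have h3 : ∀ S : Set K, {l | {a | φ (l ++ [a]) ∈ S} ∈ U} ∈ pow U n →
          {l | φ' l ∈ S} ∈ pow U n := by
        intro S hS
        refine mem_of_superset (inter_mem hS h1) ?_
        rintro l ⟨hl, hl2⟩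
        obtain ⟨a, ha, ha2⟩ := U.nonempty_of_mem (inter_mem hl (hφ' l hl2))
        have h4 : φ (l ++ [a]) = φ' l := ha2
        have h5 : φ (l ++ [a]) ∈ S := ha
        rw [h4] at h5
        exact h5
      refine ih φ' (fun C hC => h3 C ?_) (h3 _ hL)
      have := hφ C hC
      rw [mem_pow_last] at this
      exact this
    · by_cases h2 : {l | {a | φ (l ++ [a]) = a} ∈ U} ∈ pow U n
      · obtain ⟨l, hl, hl2⟩ := (pow U n).nonempty_of_mem (inter_mem hL h2)
        refine hU.lim_notMem (mem_of_superset (inter_mem hl hl2) ?_)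
        rintro a ⟨ha, ha2⟩
        have h4 : φ (l ++ [a]) = a := ha2
        have h5 : φ (l ++ [a]) ∈ Lim K := ha
        rw [h4] at h5
        exact h5
      · have h3 := hφ _ (club_closure hU φ)
        rw [mem_pow_last] at h3
        have h1' := Ultrafilter.compl_mem_iff_notMem.2 h1
        have h2' := Ultrafilter.compl_mem_iff_notMem.2 h2
        obtain ⟨l, hl, hl3⟩ := (pow U n).nonempty_of_mem (inter_mem (inter_mem h1' h2') h3)
        have h4 : {a | φ (l ++ [a]) < a}ᶜ ∈ U := Ultrafilter.compl_mem_iff_notMem.2 hl.1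
        have h5 : {a | φ (l ++ [a]) = a}ᶜ ∈ U := Ultrafilter.compl_mem_iff_notMem.2 hl.2
        obtain ⟨a, ha⟩ := U.nonempty_of_mem
          (inter_mem (inter_mem (inter_mem h4 h5) hl3) (above_mem hU l))
        have h6 : a < φ (l ++ [a]) := by
          refine lt_of_le_of_ne (not_lt.1 ha.1.1.1) fun h => ha.1.1.2 h.symm
        have h7 := ha.1.2 (l ++ [a]) ?_
        · exact lt_irrefl _ h7
        · intro b hb
          rcases List.mem_append.1 hb with hb | hb
          · exact (ha.2 b hb).trans h6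
          · rw [List.mem_singleton] at hb
            rw [hb]
            exact h6

/-- If the dichotomy takes its second alternative, there is an ultrafilter on `K` Tukey below `U`
extending the club filter and concentrating on points of cofinality `ω`. -/
theorem exists_bad {X : Type u} {V : Ultrafilter X} (hU : Nm U) (hf : ∃ f, TR U V f)
    (hn : ∀ n, ¬ RKeq U n V) :
    ∃ σ : X → K, (∃ f, TR U (V.map σ) f) ∧ (∀ C, Club C → C ∈ V.map σ) ∧ Lim K ∈ V.map σ := by
  obtain ⟨h, hh⟩ := dich hU hf hn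
  obtain ⟨f, hf⟩ := hf
  have hcpl := hf.cpl hU
  choose σ hσ using fun x => hU.exists_lub (h x)
  have hmono := seq_strictMono hcpl hU hh
  refine ⟨σ, ⟨_, hf.map σ⟩, fun C hC => ?_, ?_⟩
  · have h1 := seq_mem hcpl hU hh (hU.club_mem hC)
    have h2 : σ ⁻¹' C ∈ V := by
      refine mem_of_superset h1 fun x hx => ?_
      exact hC.2 (range (h x)) (by rintro _ ⟨n, rfl⟩; exact hx n) (range_nonempty _) _ (hσ x)
    exact h2
  · have h2 : σ ⁻¹' (Lim K) ∈ V :=
      mem_of_superset hmono fun x hx => ⟨h x, hx, hσ x⟩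
    exact h2

theorem not_RKeq_of_bad {E : Ultrafilter K} (hU : Nm U) (hC : ∀ C, Club C → C ∈ E)
    (hL : Lim K ∈ E) (n : ℕ) : ¬ RKeq U n E := by
  rintro ⟨⟨φ, rfl⟩, -⟩
  exact no_pow_club hU n φ (fun C h => hC C h) hL

end

end Pool.Agent.W866.Tk
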