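import Mathlib

/-! Ultrafilters Tukey below a normal ultrafilter: basics. -/

set_option autoImplicit false

namespace Pool.Agent.W866.Tk

open Cardinal Set Filter

universe u

/-- `U` is a normal ultrafilter on the well-ordered set `K` (uncountable, with small initial
segments): `#K`-complete, uniform, regressive functions are constant on a set of `U`. -/
structure Nm {K : Type u} [LinearOrder K] [WellFoundedLT K] (U : Ultrafilter K) : Prop where
  unc : ℵ₀ < #K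
  ini : ∀ x : K, #(Iio x) < #K
  comp : ∀ S : Set (Set K), #S < #K → (∀ s ∈ S, s ∈ U) → ⋂₀ S ∈ U
  uni : ∀ s : Set K, s ∈ U → #s = #K
  nor : ∀ f : K → K, {x | f x < x} ∈ U → ∃ y : K, {x | f x = y} ∈ U

/-- `κ`-completeness of a filter, for indexed families. -/
def Cpl (κ : Cardinal.{u}) {X : Type u} (F : Filter X) : Prop :=
  ∀ (ι : Type u) (s : ι → Set X), #ι < κ → (∀ i, s i ∈ F) → (⋂ i, s i) ∈ F

/-- If `F` is `κ`-complete and a set `P` is positive, every map of `P` into a small type has a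
positive fiber. -/
theorem Cpl.exists_fiber {κ : Cardinal.{u}} {X : Type u} {F : Filter X} (hF : Cpl κ F)
    {ι : Type u} (hι : #ι < κ) (h : X → ι) {P : Set X} (hP : Pᶜ ∉ F) :
    ∃ i, (P ∩ h ⁻¹' {i})ᶜ ∉ F := by
  by_contra hcon
  push Not at hcon
  apply hP
  refine mem_of_superset (hF ι _ hι hcon) ?_
  intro x hx hxP
  have := mem_iInter.1 hx (h x)
  exact this ⟨hxP, rfl⟩

theorem Cpl.exists_const {κ : Cardinal.{u}} {X : Type u} {V : Ultrafilter X}
    (hF : Cpl κ (V : Filter X)) {ι : Type u} (hι : #ι < κ) (h : X → ι) :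
    ∃ i, {x | h x = i} ∈ V := by
  have h1 : (Set.univ : Set X)ᶜ ∉ (V : Filter X) := by
    rw [compl_univ]
    exact V.empty_notMem
  obtain ⟨i, hi⟩ := hF.exists_fiber hι h h1
  refine ⟨i, ?_⟩
  have h2 : (Set.univ ∩ h ⁻¹' {i})ᶜ ∉ V := hi
  rw [Ultrafilter.compl_notMem_iff, univ_inter] at h2
  exact h2

theorem Cpl.count {κ : Cardinal.{u}} {X : Type u} {F : Filter X} (hF : Cpl κ F)
    (hκ : ℵ₀ < κ) (s : ℕ → Set X) (hs : ∀ n, s n ∈ F) : (⋂ n, s n) ∈ F := by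
  have h1 := hF (ULift.{u} ℕ) (fun n => s n.down) (by simpa using hκ) (fun n => hs _)
  refine mem_of_superset h1 ?_
  intro x hx
  exact mem_iInter.2 fun n => mem_iInter.1 hx ⟨n⟩

section basics

variable {K : Type u} [LinearOrder K] [WellFoundedLT K] {U : Ultrafilter K}

theorem Nm.cpl (h : Nm U) : Cpl #K (U : Filter K) := by
  intro ι s hι hs
  rw [← sInter_range]
  exact h.comp _ (mk_range_le.trans_lt hι) (by rintro _ ⟨i, rfl⟩; exact hs i)

theorem Nm.Iic_lt (h : Nm U) (a : K) : #(Iic a) < #K := by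
  rw [← Iio_insert (a := a)]
  refine (mk_insert_le).trans_lt ?_
  exact add_lt_of_lt h.unc.le (h.ini a) (one_lt_aleph0.trans h.unc)

theorem Nm.Ioi_mem (h : Nm U) (a : K) : Ioi a ∈ U := by
  by_contra hcon
  have h1 : (Ioi a)ᶜ ∈ U := Ultrafilter.compl_mem_iff_notMem.2 hcon
  rw [compl_Ioi] at h1
  exact (h.Iic_lt a).ne (h.uni _ h1)

theorem Nm.diag (h : Nm U) (A : K → Set K) (hA : ∀ a, A a ∈ U) :
    {x | ∀ a < x, x ∈ A a} ∈ U := by
  by_contra hcon
  have h1 : {x | ∀ a < x, x ∈ A a}ᶜ ∈ U := Ultrafilter.compl_mem_iff_notMem.2 hcon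
  have h2 : ∀ x, x ∈ {x | ∀ a < x, x ∈ A a}ᶜ → ∃ a, a < x ∧ x ∉ A a := by
    intro x hx
    rw [mem_compl_iff] at hx
    have hx' : ¬ ∀ a < x, x ∈ A a := hx
    push Not at hx'
    exact hx'
  classical
  have h3 : ∃ f : K → K, ∀ x, x ∈ {x | ∀ a < x, x ∈ A a}ᶜ → f x < x ∧ x ∉ A (f x) := by
    choose! f hf using h2
    exact ⟨f, hf⟩
  obtain ⟨f, hf⟩ := h3
  obtain ⟨y, hy⟩ := h.nor f (mem_of_superset h1 fun x hx => (hf x hx).1)
  obtain ⟨x, hx⟩ := U.nonempty_of_mem (inter_mem (inter_mem h1 hy) (hA y))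
  have h4 : f x = y := hx.1.2
  have := (hf x hx.1.1).2
  rw [h4] at this
  exact this hx.2

theorem Nm.no_small (h : Nm U) : ¬ ∃ a : K, ({a} : Set K) ∈ U := by
  rintro ⟨a, ha⟩
  have := h.uni _ ha
  rw [mk_singleton] at this
  exact absurd (this ▸ h.unc) (not_lt.2 one_lt_aleph0.le)

theorem Nm.two_pow (h : Nm U) {ι : Type u} (hι : #ι < #K) : #(Set ι) < #K := by
  by_contra hcon
  push Not at hcon
  obtain ⟨e⟩ := hcon
  classical
  have h1 : ∀ i, {x | i ∈ e x ↔ {x | i ∈ e x} ∈ U} ∈ U := by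
    intro i
    by_cases hi : {x | i ∈ e x} ∈ U
    · refine mem_of_superset hi fun x hx => ?_
      exact ⟨fun _ => hi, fun _ => hx⟩
    · have h2 : {x | i ∈ e x}ᶜ ∈ U := Ultrafilter.compl_mem_iff_notMem.2 hi
      refine mem_of_superset h2 fun x hx => ?_
      exact ⟨fun h => absurd h hx, fun h => absurd h hi⟩
  have h2 := h.cpl ι _ hι h1
  have h3 : (⋂ i, {x | i ∈ e x ↔ {x | i ∈ e x} ∈ U}) ⊆ {x | e x = {i | {x | i ∈ e x} ∈ U}} := by
    intro x hx
    ext i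
    exact mem_iInter.1 hx i
  obtain ⟨x, hx⟩ := U.nonempty_of_mem h2
  refine h.no_small ⟨x, mem_of_superset h2 ?_⟩
  intro y hy
  exact e.injective ((h3 hy).trans (h3 hx).symm)

theorem Nm.two_pow' (h : Nm U) {c : Cardinal.{u}} (hc : c < #K) : (2 : Cardinal.{u}) ^ c < #K := by
  have h1 : #c.out < #K := by rwa [mk_out]
  have := h.two_pow h1
  rwa [mk_set, mk_out] at this

theorem Nm.power_lt (h : Nm U) {c d : Cardinal.{u}} (hc : c < #K) (hd : d < #K) :
    c ^ d < #K := by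
  have h1 : c ^ d ≤ 2 ^ (c * d) := by
    rw [power_mul]
    exact power_le_power_right (cantor c).le
  exact h1.trans_lt (h.two_pow' (mul_lt_of_lt h.unc.le hc hd))

end basics

/-- A monotone cofinal map from `U` (restricted to sets) to `V`. -/
structure TR {K X : Type u} (U : Ultrafilter K) (V : Ultrafilter X) (f : Set K → Set X) :
    Prop where
  mono : ∀ A B, A ⊆ B → f A ⊆ f B
  mem : ∀ A, A ∈ U → f A ∈ V
  cof : ∀ Q, Q ∈ V → ∃ A, A ∈ U ∧ f A ⊆ Q

theorem TR.of_tukey {K X : Type u} {U : Ultrafilter K} {V : Ultrafilter X}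
    (g : Set X → Set K) (hg : ∀ A : Set X, A ∈ V → g A ∈ U)
    (hb : ∀ 𝒳 : Set (Set X), (∀ A ∈ 𝒳, A ∈ V) →
      (¬ ∃ B : Set X, B ∈ V ∧ ∀ A ∈ 𝒳, B ⊆ A) →
        ¬ ∃ B : Set K, B ∈ U ∧ ∀ A ∈ 𝒳, B ⊆ g A) :
    ∃ f, TR U V f := by
  refine ⟨fun A => ⋂₀ {Q | Q ∈ V ∧ A ⊆ g Q}, ⟨?_, ?_, ?_⟩⟩
  · intro A B hAB x hx Q hQ
    exact hx Q ⟨hQ.1, hAB.trans hQ.2⟩
  · intro A hA
    by_contra hcon
    refine hb {Q | Q ∈ V ∧ A ⊆ g Q} (fun Q hQ => hQ.1) ?_ ⟨A, hA, fun Q hQ => hQ.2⟩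
    rintro ⟨B, hB, hB2⟩
    exact hcon (mem_of_superset hB fun x hx Q hQ => hB2 Q hQ hx)
  · intro Q hQ
    exact ⟨g Q, hg Q hQ, fun x hx => hx Q ⟨hQ, subset_rfl⟩⟩

section TRb

variable {K X : Type u} [LinearOrder K] [WellFoundedLT K] {U : Ultrafilter K}
  {V : Ultrafilter X} {f : Set K → Set X}

theorem TR.cpl (hU : Nm U) (hf : TR U V f) : Cpl #K (V : Filter X) := by
  intro ι s hι hs
  choose A hA hA2 using fun i => hf.cof (s i) (hs i)
  have h1 := hU.cpl ι A hι hA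
  refine mem_of_superset (hf.mem _ h1) ?_
  exact subset_iInter fun i => (hf.mono _ _ (iInter_subset _ i)).trans (hA2 i)

theorem TR.map (hf : TR U V f) (h : X → K) : TR U (V.map h) (fun A => h '' f A) := by
  refine ⟨fun A B hAB => image_mono (hf.mono _ _ hAB), fun A hA => ?_, fun Q hQ => ?_⟩
  · have h1 : h ⁻¹' (h '' f A) ∈ V := mem_of_superset (hf.mem A hA) (subset_preimage_image h _)
    exact h1
  · obtain ⟨A, hA, hAQ⟩ := hf.cof _ hQ
    exact ⟨A, hA, image_subset_iff.2 hAQ⟩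

theorem uf_eq_of_forall {Y : Type u} {A B : Ultrafilter Y}
    (h : ∀ s, s ∈ A → s ∈ B) : A = B := by
  refine Ultrafilter.ext fun s => ⟨h s, fun hs => ?_⟩
  by_contra hcon
  have := h _ (Ultrafilter.compl_mem_iff_notMem.2 hcon)
  exact (Ultrafilter.compl_mem_iff_notMem.1 this) hs

omit [LinearOrder K] [WellFoundedLT K] in
/-- Every set-valued function that takes values inside small pieces... the basic reduction:
if all maps `X → K` are constant mod `V` then so are all maps `X → Set K`. -/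
theorem const_set_of_const [Nonempty K] (hc : ∀ h : X → K, ∃ a, {x | h x = a} ∈ V)
    (F : X → Set K) : ∃ s, {x | F x = s} ∈ V := by
  classical
  refine ⟨{k | {x | k ∈ F x} ∈ V}, ?_⟩
  by_contra hcon
  have h1 := Ultrafilter.compl_mem_iff_notMem.2 hcon
  set s : Set K := {k | {x | k ∈ F x} ∈ V} with hs
  have h2 : ∀ x, x ∈ {x | F x = s}ᶜ → ∃ k, ¬ (k ∈ F x ↔ k ∈ s) := by
    intro x hx
    by_contra hno
    push Not at hno
    exact hx (Set.ext hno)
  choose! h hh using h2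
  obtain ⟨a, ha⟩ := hc h
  have h3 : {x | a ∈ F x ↔ a ∈ s} ∈ V := by
    by_cases has : a ∈ s
    · exact mem_of_superset has fun x hx => ⟨fun _ => has, fun _ => hx⟩
    · have : {x | a ∈ F x}ᶜ ∈ V := Ultrafilter.compl_mem_iff_notMem.2 has
      exact mem_of_superset this fun x hx => ⟨fun h => absurd h hx, fun h => absurd h has⟩
  obtain ⟨x, hx⟩ := V.nonempty_of_mem (inter_mem (inter_mem h1 ha) h3)
  have h4 : h x = a := hx.1.2
  have h5 := hh x hx.1.1
  rw [h4] at h5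
  exact h5 hx.2

omit [LinearOrder K] [WellFoundedLT K] in
theorem exists_nonconst (hf : TR U V f) (hV : ¬ ∃ x, ({x} : Set X) ∈ V) :
    ∃ h : X → K, ∀ a, {x | h x = a} ∉ V := by
  by_contra hcon
  push Not at hcon
  have : Nonempty K := by
    obtain ⟨x, -⟩ := U.nonempty_of_mem univ_mem
    exact ⟨x⟩
  have hc := const_set_of_const hcon
  have hP : (⋂₀ {Q | ∃ A, A ∈ U ∧ Q = f A}) ∈ V := by
    by_contra hno
    have h1 := Ultrafilter.compl_mem_iff_notMem.2 hno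
    have h2 : ∀ x, x ∈ (⋂₀ {Q | ∃ A, A ∈ U ∧ Q = f A})ᶜ → ∃ A, A ∈ U ∧ x ∉ f A := by
      intro x hx
      rw [mem_compl_iff, mem_sInter] at hx
      push Not at hx
      obtain ⟨Q, ⟨A, hA, rfl⟩, hQ⟩ := hx
      exact ⟨A, hA, hQ⟩
    choose! F hF using h2
    obtain ⟨A, hA⟩ := hc F
    obtain ⟨x, hx⟩ := V.nonempty_of_mem (inter_mem h1 hA)
    have h3 : F x = A := hx.2
    have hAU : A ∈ U := h3 ▸ (hF x hx.1).1
    obtain ⟨y, hy⟩ := V.nonempty_of_mem (inter_mem (inter_mem h1 hA) (hf.mem A hAU))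
    have h4 : F y = A := hy.1.2
    have h5 := (hF y hy.1.1).2
    rw [h4] at h5
    exact h5 hy.2
  obtain ⟨x, hx⟩ := V.nonempty_of_mem hP
  refine hV ⟨x, ?_⟩
  by_contra hno
  have h1 := Ultrafilter.compl_mem_iff_notMem.2 hno
  obtain ⟨A, hA, hAQ⟩ := hf.cof _ h1
  exact hAQ (hx (f A) ⟨A, hA, rfl⟩) rfl

/-- The seed function: a nonconstant map below which every map is constant. -/
theorem exists_seed (hU : Nm U) (hf : TR U V f) (hV : ¬ ∃ x, ({x} : Set X) ∈ V) :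
    ∃ h : X → K, (∀ a, {x | h x = a} ∉ V) ∧
      ∀ r : X → K, {x | r x < h x} ∈ V → ∃ a, {x | r x = a} ∈ V := by
  classical
  by_contra hcon
  push Not at hcon
  obtain ⟨h₀, hh₀⟩ := exists_nonconst hf hV
  let N := {h : X → K // ∀ a, {x | h x = a} ∉ V}
  have h1 : ∀ h : N, ∃ r : N, {x | r.1 x < h.1 x} ∈ V := by
    rintro ⟨h, hh⟩
    obtain ⟨r, hr, hr2⟩ := hcon h hh
    exact ⟨⟨r, hr2⟩, hr⟩
  choose nx hnx using h1
  let sq : ℕ → N := fun n => nx^[n] ⟨h₀, hh₀⟩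
  have h2 : ∀ n, {x | (sq (n+1)).1 x < (sq n).1 x} ∈ V := by
    intro n
    have : sq (n+1) = nx (sq n) := Function.iterate_succ_apply' _ _ _
    rw [this]
    exact hnx _
  have h3 := (hf.cpl hU).count hU.unc _ h2
  obtain ⟨x, hx⟩ := V.nonempty_of_mem h3
  have h4 : StrictAnti (fun n => (sq n).1 x) :=
    strictAnti_nat_of_succ_lt fun n => mem_iInter.1 hx n
  exact (WellFounded.not_rel_apply_succ (r := (· < ·)) (fun n => (sq n).1 x)).elim
    fun n hn => hn (h4 (Nat.lt_succ_self n))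

end TRb

end Pool.Agent.W866.Tk
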