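import Pool.Agent.W866.Tk1

/-! A normal ultrafilter Tukey below a normal ultrafilter is equal to it. -/

set_option autoImplicit false

namespace Pool.Agent.W866.Tk

open Cardinal Set Filter

universe u

/-- Definition by well-founded recursion with choices. -/
theorem exists_rec {Λ : Type*} [LinearOrder Λ] [WellFoundedLT Λ] {α : Type*}
    (P : (i : Λ) → (Iio i → α) → α → Prop) (h : ∀ i f, ∃ x, P i f x) :
    ∃ F : Λ → α, ∀ i, P i (fun j => F j.1) (F i) := by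
  classical
  choose c hc using h
  let F : Λ → α := (wellFounded_lt (α := Λ)).fix (fun i f => c i (fun j => f j.1 j.2))
  refine ⟨F, fun i => ?_⟩
  have : F i = c i (fun j => F j.1) := (wellFounded_lt (α := Λ)).fix_eq _ i
  rw [this]
  exact hc i _

theorem mem_or_iff {X : Type u} (V : Ultrafilter X) (p : X → Prop) :
    {x | p x ↔ {x | p x} ∈ V} ∈ V := by
  by_cases hi : {x | p x} ∈ V
  · refine mem_of_superset hi fun x hx => ?_
    exact ⟨fun _ => hi, fun _ => hx⟩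
  · have h2 : {x | p x}ᶜ ∈ V := Ultrafilter.compl_mem_iff_notMem.2 hi
    refine mem_of_superset h2 fun x hx => ?_
    exact ⟨fun h => absurd h hx, fun h => absurd h hi⟩

section

variable {K X : Type u} [LinearOrder K] [WellFoundedLT K] {V : Ultrafilter X}

/-- Sets below the seed are reflections of one set. -/
theorem reflect {h : X → K} (hs : ∀ r : X → K, {x | r x < h x} ∈ V → ∃ a, {x | r x = a} ∈ V)
    (r : X → Set K) (hr : {x | r x ⊆ Iio (h x)} ∈ V) :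
    ∃ R : Set K, {x | r x = R ∩ Iio (h x)} ∈ V := by
  classical
  refine ⟨{k | {x | k ∈ r x} ∈ V}, ?_⟩
  by_contra hcon
  have h1 := Ultrafilter.compl_mem_iff_notMem.2 hcon
  set R : Set K := {k | {x | k ∈ r x} ∈ V} with hR
  have h2 : ∀ x, x ∈ {x | r x = R ∩ Iio (h x)}ᶜ ∩ {x | r x ⊆ Iio (h x)} →
      ∃ k, k < h x ∧ ¬ (k ∈ r x ↔ k ∈ R) := by
    rintro x ⟨hx, hx2⟩
    by_contra hno
    push Not at hno
    apply hx
    ext k
    constructor
    · intro hk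
      exact ⟨(hno k (hx2 hk)).1 hk, hx2 hk⟩
    · rintro ⟨hk, hk2⟩
      exact (hno k hk2).2 hk
  by_cases hne : Nonempty K
  · choose! q hq using h2
    obtain ⟨a, ha⟩ := hs q (mem_of_superset (inter_mem h1 hr) fun x hx => (hq x hx).1)
    have h3 := mem_or_iff V (fun x => a ∈ r x)
    obtain ⟨x, hx⟩ := V.nonempty_of_mem (inter_mem (inter_mem (inter_mem h1 hr) ha) h3)
    have h4 : q x = a := hx.1.2
    have h5 := (hq x hx.1.1).2
    rw [h4] at h5
    exact h5 hx.2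
  · obtain ⟨x, hx⟩ := V.nonempty_of_mem (inter_mem h1 hr)
    obtain ⟨k, -⟩ := h2 x hx
    exact hne ⟨k⟩

theorem normal_eq {U D : Ultrafilter K} {f : Set K → Set K} (hU : Nm U) (hf : TR U D f)
    (hD1 : ∀ a, ({a} : Set K) ∉ D)
    (hD2 : ∀ r : K → K, {x | r x < x} ∈ D → ∃ a, {x | r x = a} ∈ D) : U = D := by
  classical
  refine uf_eq_of_forall fun A₁ hA₁ => ?_
  by_contra hA₁D
  have hA₁c : A₁ᶜ ∈ D := Ultrafilter.compl_mem_iff_notMem.2 hA₁D
  -- tails are in `D`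
  have htail : ∀ a, Ioi a ∈ D := by
    intro a
    by_contra hcon
    have h1 : (Ioi a)ᶜ ∈ D := Ultrafilter.compl_mem_iff_notMem.2 hcon
    rw [compl_Ioi] at h1
    have h2 := hf.cpl hU (Iic a) (fun b => ({b.1} : Set K)ᶜ) (hU.Iic_lt a)
      (fun b => Ultrafilter.compl_mem_iff_notMem.2 (hD1 b.1))
    obtain ⟨x, hx⟩ := D.nonempty_of_mem (inter_mem h1 h2)
    exact mem_iInter.1 hx.2 ⟨x, hx.1⟩ rfl
  -- the families `E`
  let E : K → Set (Set K) := fun a => {s | s ⊆ Iio a ∧ ∀ B ∈ U, a ∈ f (s ∪ (B ∩ Ioi a))}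
  have hB0 : ∀ (a : K) (s : Set K), ∃ B, B ∈ U ∧ (s ⊆ Iio a → s ∉ E a →
      a ∉ f (s ∪ (B ∩ Ioi a))) := by
    intro a s
    by_cases hs : s ∈ E a
    · exact ⟨Set.univ, univ_mem, fun _ h => absurd hs h⟩
    · by_cases hsa : s ⊆ Iio a
      · have : ¬ ∀ B ∈ U, a ∈ f (s ∪ (B ∩ Ioi a)) := fun h => hs ⟨hsa, h⟩
        push Not at this
        obtain ⟨B, hB, hB2⟩ := this
        exact ⟨B, hB, fun _ _ => hB2⟩
      · exact ⟨Set.univ, univ_mem, fun h => absurd h hsa⟩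
  choose B hBU hB using hB0
  let B' : K → Set K := fun a => ⋂ s : Set (Iio a), B a (Subtype.val '' s)
  have hB'U : ∀ a, B' a ∈ U := fun a =>
    hU.cpl (Set (Iio a)) _ (hU.two_pow (hU.ini a)) (fun s => hBU a _)
  let As : Set K := A₁ ∩ {x | ∀ a < x, x ∈ B' a}
  have hAs : As ∈ U := inter_mem hA₁ (hU.diag B' hB'U)
  let f' : Set K → Set K := fun A => {a | a ∉ A₁ ∧ A ∩ Iio a ∈ E a}
  have hkey1 : ∀ A, A ∈ U → A ⊆ As → ∀ a, a ∈ f A → a ∉ A₁ → a ∈ f' A := by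
    intro A hA hAAs a ha haA₁
    refine ⟨haA₁, ?_⟩
    by_contra hcon
    have h1 := hB a (A ∩ Iio a) inter_subset_right hcon
    apply h1
    refine hf.mono _ _ ?_ ha
    intro x hx
    rcases lt_trichotomy x a with h | h | h
    · exact Or.inl ⟨hx, h⟩
    · exact absurd (hAAs (h ▸ hx)).1 haA₁
    · refine Or.inr ⟨?_, h⟩
      have h2 := (hAAs hx).2 a h
      have h3 := mem_iInter.1 h2 (Subtype.val ⁻¹' A)
      have h4 : (Subtype.val '' (Subtype.val ⁻¹' A : Set (Iio a)) : Set K) = A ∩ Iio a := by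
        rw [Subtype.image_preimage_coe, inter_comm]
      rwa [h4] at h3
  have hkey2 : ∀ A, A ∈ U → A ⊆ As → ∀ a, a ∈ f' A → a ∈ f A := by
    intro A hA hAAs a ha
    have h1 := ha.2.2 A hA
    refine hf.mono _ _ ?_ h1
    rintro x (hx | hx)
    · exact hx.1
    · exact hx.1
  have hE_ext : ∀ (s : Set K) (a b : K), b < a → (s ∩ Iio a) ∩ Iio b = s ∩ Iio b := by
    intro s a b hba
    ext x
    constructor
    · rintro ⟨⟨h1, _⟩, h2⟩
      exact ⟨h1, h2⟩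
    · rintro ⟨h1, h2⟩
      exact ⟨⟨h1, lt_trans h2 hba⟩, h2⟩
  -- the diagonal set
  obtain ⟨Z, hZ⟩ := exists_rec (Λ := K) (α := Prop)
    (fun a z x => x ↔ (a ∉ A₁ ∧ ∀ s ∈ E a, ∃ b, ∃ hb : b < a, b ∈ f' s ∧ ¬ z ⟨b, hb⟩))
    (fun a z => ⟨_, Iff.rfl⟩)
  have hZ' : ∀ a, Z a ↔ (a ∉ A₁ ∧ ∀ s ∈ E a, ∃ b, b < a ∧ b ∈ f' s ∧ ¬ Z b) := by
    intro a
    rw [hZ a]
    refine and_congr Iff.rfl (forall_congr' fun s => forall_congr' fun hs => ?_)
    constructor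
    · rintro ⟨b, hb, h1, h2⟩
      exact ⟨b, hb, h1, h2⟩
    · rintro ⟨b, hb, h1, h2⟩
      exact ⟨b, hb, h1, h2⟩
  by_cases hZD : {a | Z a} ∈ D
  · obtain ⟨A, hA, hAZ⟩ := hf.cof _ hZD
    have hA2 : A ∩ As ∈ U := inter_mem hA hAs
    have hAZ2 : f (A ∩ As) ⊆ {a | Z a} := (hf.mono _ _ inter_subset_left).trans hAZ
    obtain ⟨a, ha⟩ := D.nonempty_of_mem (inter_mem (hf.mem _ hA2) hA₁c)
    have h1 := hkey1 _ hA2 inter_subset_right a ha.1 ha.2
    obtain ⟨b, hba, hb, hbZ⟩ := ((hZ' a).1 (hAZ2 ha.1)).2 _ h1.2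
    have h2 : b ∈ f' (A ∩ As) := by
      refine ⟨hb.1, ?_⟩
      have h3 := hb.2
      rwa [hE_ext _ _ _ hba] at h3
    exact hbZ (hAZ2 (hkey2 _ hA2 inter_subset_right b h2))
  · have hZc : {a | Z a}ᶜ ∈ D := Ultrafilter.compl_mem_iff_notMem.2 hZD
    obtain ⟨A, hA, hAZ⟩ := hf.cof _ hZc
    have hA2 : A ∩ As ∈ U := inter_mem hA hAs
    have hAZ2 : f (A ∩ As) ⊆ {a | Z a}ᶜ := (hf.mono _ _ inter_subset_left).trans hAZ
    have h1 : ∀ a, a ∈ f (A ∩ As) ∩ A₁ᶜ → ∃ s, s ∈ E a ∧ ∀ b, b < a → b ∈ f' s → Z b := by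
      rintro a ⟨ha, ha2⟩
      have h2 : ¬ Z a := hAZ2 ha
      rw [hZ' a] at h2
      push Not at h2
      obtain ⟨s, hs, hs2⟩ := h2 ha2
      exact ⟨s, hs, fun b hb hb2 => hs2 b hb hb2⟩
    choose! s hsE hsZ using h1
    have hYD : f (A ∩ As) ∩ A₁ᶜ ∈ D := inter_mem (hf.mem _ hA2) hA₁c
    obtain ⟨R, hR⟩ := reflect (V := D) (h := fun a : K => a) hD2 s
      (mem_of_superset hYD fun a ha => (hsE a ha).1)
    have hfR : f' R ∈ D := by
      refine mem_of_superset (inter_mem hYD hR) ?_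
      rintro a ⟨ha, ha2⟩
      refine ⟨ha.2, ?_⟩
      have h3 := hsE a ha
      have h4 : s a = R ∩ Iio a := ha2
      rwa [h4] at h3
    have hfA : f' (A ∩ As) ∈ D := mem_of_superset hYD fun a ha =>
      hkey1 _ hA2 inter_subset_right a ha.1 ha.2
    obtain ⟨b, hb⟩ := D.nonempty_of_mem (inter_mem hfR hfA)
    obtain ⟨a, ha⟩ := D.nonempty_of_mem (inter_mem (inter_mem hYD hR) (htail b))
    have hba : b < a := ha.2
    have h4 : s a = R ∩ Iio a := ha.1.2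
    have h5 : b ∈ f' (s a) := by
      refine ⟨hb.1.1, ?_⟩
      rw [h4, hE_ext _ _ _ hba]
      exact hb.1.2
    have h6 := hsZ a ha.1.1 b hba h5
    exact hAZ2 (hkey2 _ hA2 inter_subset_right b hb.2) h6

/-- The seed of an ultrafilter Tukey below a normal one pushes it to the normal one. -/
theorem exists_seed' {U : Ultrafilter K} {f : Set K → Set X} (hU : Nm U) (hf : TR U V f)
    (hV : ¬ ∃ x, ({x} : Set X) ∈ V) :
    ∃ h : X → K, V.map h = U ∧
      ∀ r : X → K, {x | r x < h x} ∈ V → ∃ a, {x | r x = a} ∈ V := by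
  obtain ⟨h, h1, h2⟩ := exists_seed hU hf hV
  refine ⟨h, ?_, h2⟩
  refine (normal_eq hU (hf.map h) (fun a ha => h1 a ha) ?_).symm
  intro r hr
  exact h2 (fun x => r (h x)) hr

end

end Pool.Agent.W866.Tk
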