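import Pool.Agent.W866.Tk2

/-! Complete filters: a Bernstein type construction and atoms. -/

set_option autoImplicit false

namespace Pool.Agent.W866.Tk

open Cardinal Set Filter

universe u

theorem transversal {A Λ : Type u} (S : A → Set Λ) (hS : ∀ a, #A < #(S a)) :
    ∃ w : A → Λ, Function.Injective w ∧ ∀ a, w a ∈ S a := by
  classical
  obtain ⟨hlin, hwf⟩ := exists_wellFoundedLT A
  obtain ⟨w, hw⟩ := exists_rec (Λ := A) (α := Λ)
    (fun a f x => x ∈ S a ∧ ∀ b : Iio a, x ≠ f b) (by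
      intro a f
      by_contra hcon
      push Not at hcon
      have h1 : S a ⊆ range f := by
        intro x hx
        obtain ⟨b, hb⟩ := hcon x hx
        exact ⟨b, hb.symm⟩
      have h2 : #(S a) ≤ #A :=
        (mk_le_mk_of_subset h1).trans (mk_range_le.trans (mk_set_le _))
      exact absurd (hS a) (not_lt.2 h2))
  refine ⟨w, ?_, fun a => (hw a).1⟩
  intro a b hab
  rcases lt_trichotomy a b with h | h | h
  · exact absurd hab.symm ((hw b).2 ⟨a, h⟩)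
  · exact h
  · exact absurd hab ((hw a).2 ⟨b, h⟩)

/-- A set splitting few complete filters each of which has many disjoint positive sets. -/
theorem bern {κ : Cardinal.{u}} {X J T : Type u} (G : J → Filter X) (hG : ∀ j, Cpl κ (G j))
    (hJT : #(J × Bool) < #T) (hκ : #(J → T) < κ) (u : J → X → T)
    (hu : ∀ j i, (u j ⁻¹' {i})ᶜ ∉ G j) : ∃ Q : Set X, ∀ j, Q ∉ G j ∧ Qᶜ ∉ G j := by
  classical
  let H : X → (J → T) := fun x j => u j x
  let S : J → Set (J → T) := fun j => {z | (H ⁻¹' {z})ᶜ ∉ G j}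
  have h1 : ∀ j i, ∃ z, z ∈ S j ∧ z j = i := by
    intro j i
    obtain ⟨z, hz⟩ := (hG j).exists_fiber hκ H (hu j i)
    have hne : ((u j ⁻¹' {i}) ∩ H ⁻¹' {z}).Nonempty := by
      rw [nonempty_iff_ne_empty]
      intro he
      rw [he, compl_empty] at hz
      exact hz univ_mem
    obtain ⟨x, hx1, hx2⟩ := hne
    refine ⟨z, fun h => hz (mem_of_superset h (compl_subset_compl.2 inter_subset_right)), ?_⟩
    have h2 : H x = z := hx2
    have h3 : u j x = i := hx1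
    rw [← h2]
    exact h3
  choose z hzS hz using h1
  have h2 : ∀ j, #T ≤ #(S j) := fun j =>
    mk_le_of_injective (f := fun i => (⟨z j i, hzS j i⟩ : S j)) (by
      intro i i' hii
      have := congrArg (fun s : S j => s.1 j) hii
      simpa [hz] using this)
  obtain ⟨w, hwi, hw⟩ := transversal (A := J × Bool) (fun a => S a.1)
    (fun a => hJT.trans_le (h2 a.1))
  refine ⟨{x | ∃ j, H x = w (j, true)}, fun j => ⟨fun h => ?_, fun h => ?_⟩⟩
  · refine hw (j, false) (mem_of_superset h ?_)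
    rintro x ⟨j', hj'⟩ hx
    have h3 : H x = w (j, false) := hx
    have := hwi (hj'.symm.trans h3)
    simp at this
  · refine hw (j, true) (mem_of_superset h ?_)
    intro x hx hx2
    exact hx ⟨j, hx2⟩

/-- `Z` is an atom of the filter `G`. -/
def Atom {X : Type u} (G : Filter X) (Z : Set X) : Prop :=
  Zᶜ ∉ G ∧ ∀ Q : Set X, (Z ∩ Q)ᶜ ∈ G ∨ (Z \ Q)ᶜ ∈ G

/-- Tarski: a complete filter without many disjoint positive sets is atomic. -/
theorem exists_atom {κ : Cardinal.{u}} {X T : Type u} [LinearOrder T] [WellFoundedLT T]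
    [Nonempty T] {G : Filter X} (hG : Cpl κ G) (hT : #(Set T) < κ)
    (hno : ¬ ∃ u : X → T, ∀ i, (u ⁻¹' {i})ᶜ ∉ G) {Y : Set X} (hY : Yᶜ ∉ G) :
    ∃ Z, Z ⊆ Y ∧ Atom G Z := by
  classical
  by_contra hcon
  have h1 : ∀ Z : Set X, Z ⊆ Y → Zᶜ ∉ G → ∃ Q : Set X, (Z ∩ Q)ᶜ ∉ G ∧ (Z \ Q)ᶜ ∉ G := by
    intro Z hZ hZG
    by_contra hno2
    push Not at hno2
    refine hcon ⟨Z, hZ, hZG, fun Q => ?_⟩
    by_cases h : (Z ∩ Q)ᶜ ∈ G
    · exact Or.inl h
    · exact Or.inr (hno2 Q h)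
  choose! q hq1 hq2 using h1
  obtain ⟨F, hF⟩ := exists_rec (Λ := T) (α := X → Prop)
    (fun i f p => p = fun x => x ∈ q {z | z ∈ Y ∧ ∀ j : Iio i, f j z ↔ f j x})
    (fun i f => ⟨_, rfl⟩)
  let C : T → X → Set X := fun i x => {z | z ∈ Y ∧ ∀ j : Iio i, F j z ↔ F j x}
  have hF' : ∀ i x, F i x ↔ x ∈ q (C i x) := by
    intro i x
    have := congrFun (hF i) x
    rw [this]
  have hC : ∀ i x z, z ∈ C i x → C i z = C i x := by
    intro i x z hz
    ext y
    constructor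
    · rintro ⟨hy, hy2⟩
      exact ⟨hy, fun j => (hy2 j).trans (hz.2 j)⟩
    · rintro ⟨hy, hy2⟩
      exact ⟨hy, fun j => (hy2 j).trans (hz.2 j).symm⟩
  obtain ⟨b, hb⟩ := hG.exists_fiber hT (fun x => {i | F i x}) hY
  have hne : (Y ∩ (fun x => {i | F i x}) ⁻¹' {b}).Nonempty := by
    rw [nonempty_iff_ne_empty]
    intro he
    rw [he, compl_empty] at hb
    exact hb univ_mem
  obtain ⟨x₀, hx₀Y, hx₀⟩ := hne
  have hPC : ∀ i, (Y ∩ (fun x => {i | F i x}) ⁻¹' {b}) ⊆ C i x₀ := by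
    rintro i z ⟨hzY, hz⟩
    refine ⟨hzY, fun j => ?_⟩
    have h2 : {i | F i z} = {i | F i x₀} := by
      have h3 : {i | F i z} = b := hz
      have h4 : {i | F i x₀} = b := hx₀
      rw [h3, h4]
    exact Set.ext_iff.1 h2 j.1
  have hCpos : ∀ i, (C i x₀)ᶜ ∉ G := fun i h =>
    hb (mem_of_superset h (compl_subset_compl.2 (hPC i)))
  have hCY : ∀ i, C i x₀ ⊆ Y := fun i z hz => hz.1
  let D : T → Set X := fun i => {z | z ∈ C i x₀ ∧ ¬ (F i z ↔ F i x₀)}
  have hD : ∀ i, (D i)ᶜ ∉ G := by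
    intro i
    by_cases hi : F i x₀
    · have h2 : C i x₀ \ q (C i x₀) ⊆ D i := by
        rintro z ⟨hz, hz2⟩
        refine ⟨hz, fun h => hz2 ?_⟩
        have h3 := (hF' i z).1 (h.2 hi)
        rwa [hC i x₀ z hz] at h3
      exact fun h => hq2 _ (hCY i) (hCpos i) (mem_of_superset h (compl_subset_compl.2 h2))
    · have h2 : C i x₀ ∩ q (C i x₀) ⊆ D i := by
        rintro z ⟨hz, hz2⟩
        refine ⟨hz, fun h => hi (h.1 ?_)⟩
        rw [hF' i z, hC i x₀ z hz]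
        exact hz2
      exact fun h => hq1 _ (hCY i) (hCpos i) (mem_of_superset h (compl_subset_compl.2 h2))
  have hDu : ∀ i j z, z ∈ D i → z ∈ D j → i = j := by
    intro i j z hi hj
    rcases lt_trichotomy i j with h | h | h
    · exact absurd (hj.1.2 ⟨i, h⟩) hi.2
    · exact h
    · exact absurd (hi.1.2 ⟨j, h⟩) hj.2
  refine hno ⟨fun z => if h : ∃ i, z ∈ D i then h.choose else Classical.arbitrary T, ?_⟩
  intro i h
  refine hD i (mem_of_superset h (compl_subset_compl.2 ?_))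
  intro z hz
  have hex : ∃ i, z ∈ D i := ⟨i, hz⟩
  have : (if h : ∃ i, z ∈ D i then h.choose else Classical.arbitrary T) = i := by
    rw [dif_pos hex]
    exact hDu _ _ z hex.choose_spec hz
  exact this

/-- All of a filter is covered by few disjoint atoms. -/
theorem atoms {κ : Cardinal.{u}} {X I : Type u} [Infinite I] {G : Filter X} (hG : Cpl κ G)
    (hT : #(Set ((Order.succ #(Set I)).ord.ToType)) < κ)
    (hno : ¬ ∃ u : X → (Order.succ #(Set I)).ord.ToType, ∀ i, (u ⁻¹' {i})ᶜ ∉ G) :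
    ∃ Z : Set I → Set X, (∀ s t x, x ∈ Z s → x ∈ Z t → s = t) ∧
      (∀ s, (Z s).Nonempty → Atom G (Z s)) ∧ (⋃ s, Z s) ∈ G := by
  classical
  have hTne : Nonempty ((Order.succ #(Set I)).ord.ToType) := by
    rw [← mk_ne_zero_iff, Cardinal.mk_toType, card_ord]
    exact (Order.bot_lt_succ _).ne'
  -- Zorn
  let P : Set (Set (Set X)) := {𝒵 | (∀ Z ∈ 𝒵, Atom G Z) ∧
    ∀ Z ∈ 𝒵, ∀ Z' ∈ 𝒵, (Z ∩ Z').Nonempty → Z = Z'}
  obtain ⟨𝒵, h𝒵⟩ := zorn_subset P (by
    intro c hc hchain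
    refine ⟨⋃₀ c, ⟨?_, ?_⟩, fun s hs => subset_sUnion_of_mem hs⟩
    · rintro Z ⟨s, hs, hZ⟩
      exact (hc hs).1 Z hZ
    · rintro Z ⟨s, hs, hZ⟩ Z' ⟨s', hs', hZ'⟩ hne
      rcases hchain.total hs hs' with h | h
      · exact (hc hs').2 Z (h hZ) Z' hZ' hne
      · exact (hc hs).2 Z hZ Z' (h hZ') hne)
  have h𝒵P : 𝒵 ∈ P := h𝒵.prop
  have hcover : ⋃₀ 𝒵 ∈ G := by
    by_contra hcon
    have h1 : ((⋃₀ 𝒵)ᶜ)ᶜ ∉ G := by rwa [compl_compl]
    obtain ⟨Z, hZ, hZat⟩ := exists_atom hG hT hno h1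
    have hZne : Z.Nonempty := by
      rw [nonempty_iff_ne_empty]
      intro he
      apply hZat.1
      rw [he, compl_empty]
      exact univ_mem
    have h2 : insert Z 𝒵 ∈ P := by
      refine ⟨?_, ?_⟩
      · rintro W (rfl | hW)
        · exact hZat
        · exact h𝒵P.1 W hW
      · rintro W (rfl | hW) W' (rfl | hW') hne
        · rfl
        · obtain ⟨x, hx, hx'⟩ := hne
          exact absurd ⟨W', hW', hx'⟩ (hZ hx)
        · obtain ⟨x, hx, hx'⟩ := hne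
          exact absurd ⟨W, hW, hx⟩ (hZ hx')
        · exact h𝒵P.2 W hW W' hW' hne
    have h3 := h𝒵.le_of_ge h2 (subset_insert _ _)
    have h4 : Z ∈ 𝒵 := h3 (mem_insert _ _)
    obtain ⟨x, hx⟩ := hZne
    exact hZ hx ⟨Z, h4, hx⟩
  -- few atoms
  have hcard : #𝒵 ≤ #(Set I) := by
    rw [← Order.lt_succ_iff]
    by_contra hcon
    push Not at hcon
    have h1 : #((Order.succ #(Set I)).ord.ToType) ≤ #𝒵 := by
      rwa [Cardinal.mk_toType, card_ord]
    obtain ⟨e⟩ := h1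
    refine hno ⟨fun z => if h : ∃ i, z ∈ (e i).1 then h.choose else Classical.arbitrary _, ?_⟩
    intro i h
    refine (h𝒵P.1 _ (e i).2).1 (mem_of_superset h (compl_subset_compl.2 ?_))
    intro z hz
    have hex : ∃ i, z ∈ (e i).1 := ⟨i, hz⟩
    have : (if h : ∃ i, z ∈ (e i).1 then h.choose else Classical.arbitrary _) = i := by
      rw [dif_pos hex]
      apply e.injective
      apply Subtype.ext
      exact h𝒵P.2 _ (e _).2 _ (e i).2 ⟨z, hex.choose_spec, hz⟩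
    exact this
  obtain ⟨e⟩ := hcard
  refine ⟨fun s => {x | ∃ Z : 𝒵, x ∈ Z.1 ∧ e Z = s}, ?_, ?_, ?_⟩
  · rintro s t x ⟨Z, hxZ, hs⟩ ⟨Z', hxZ', ht⟩
    have : Z = Z' := Subtype.ext (h𝒵P.2 _ Z.2 _ Z'.2 ⟨x, hxZ, hxZ'⟩)
    rw [← hs, ← ht, this]
  · rintro s ⟨x, Z, hxZ, hs⟩
    have h1 : {x | ∃ Z : 𝒵, x ∈ Z.1 ∧ e Z = s} = Z.1 := by
      ext y
      constructor
      · rintro ⟨Z', hy, hs'⟩
        have : Z' = Z := e.injective (hs'.trans hs.symm)
        rwa [this] at hy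
      · intro hy
        exact ⟨Z, hy, hs⟩
    have h2 := h𝒵P.1 _ Z.2
    rw [← h1] at h2
    exact h2
  · refine mem_of_superset hcover ?_
    rintro x ⟨Z, hZ, hx⟩
    exact mem_iUnion.2 ⟨e ⟨Z, hZ⟩, ⟨Z, hZ⟩, hx, rfl⟩

end Pool.Agent.W866.Tk
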