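import Pool.Agent.W866.Tk3

/-! An ultrafilter Tukey below a normal ultrafilter `U` is a `U`-sum of ultrafilters Tukey
below `U`. -/

set_option autoImplicit false

namespace Pool.Agent.W866.Tk

open Cardinal Set Filter

universe u

theorem Atom.exists_uf {X : Type u} {G : Filter X} {Z : Set X} (hZ : Atom G Z) :
    ∃ W : Ultrafilter X, ∀ Q, Q ∈ W ↔ (Z \ Q)ᶜ ∈ G := by
  have hset : ∀ Q : Set X, Q ∈ G ⊓ 𝓟 Z ↔ (Z \ Q)ᶜ ∈ G := by
    intro Q
    rw [mem_inf_principal]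
    have : {x | x ∈ Z → x ∈ Q} = (Z \ Q)ᶜ := by
      ext x
      simp only [mem_ofPred_eq, mem_compl_iff, Set.mem_sdiff, not_and, not_not]
    rw [this]
  refine ⟨Ultrafilter.ofComplNotMemIff (G ⊓ 𝓟 Z) ?_, fun Q => hset Q⟩
  intro Q
  rw [hset, hset]
  constructor
  · intro h
    rcases hZ.2 Q with h1 | h1
    · exfalso
      apply h
      have : Z \ Qᶜ = Z ∩ Q := by
        ext x; simp
      rwa [this]
    · exact h1
  · intro h h1
    apply hZ.1
    refine mem_of_superset (inter_mem h h1) ?_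
    rintro x ⟨hx1, hx2⟩ hxZ
    by_cases hxQ : x ∈ Q
    · exact hx2 ⟨hxZ, fun h => h hxQ⟩
    · exact hx1 ⟨hxZ, hxQ⟩

/-- The filter on the fiber of `h` over `η` given by the sets `f (t ∪ {η} ∪ B)`, `B ∈ U`. -/
def Gf {K X : Type u} [LinearOrder K] (U : Ultrafilter K) (f : Set K → Set X)
    (hm : ∀ A B, A ⊆ B → f A ⊆ f B) (h : X → K) (η : K) (t : Set K) : Filter X where
  sets := {Q | ∃ B, B ∈ U ∧ f (t ∪ {η} ∪ (B ∩ Ioi η)) ∩ h ⁻¹' {η} ⊆ Q}
  univ_sets := ⟨Set.univ, univ_mem, subset_univ _⟩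
  sets_of_superset := by
    rintro Q Q' ⟨B, hB, hB2⟩ hQ
    exact ⟨B, hB, hB2.trans hQ⟩
  inter_sets := by
    rintro Q Q' ⟨B, hB, hB2⟩ ⟨B', hB', hB2'⟩
    refine ⟨B ∩ B', inter_mem hB hB', subset_inter ?_ ?_⟩
    · refine (inter_subset_inter_left _ (hm _ _ ?_)).trans hB2
      exact union_subset_union_right _ (inter_subset_inter_left _ inter_subset_left)
    · refine (inter_subset_inter_left _ (hm _ _ ?_)).trans hB2'
      exact union_subset_union_right _ (inter_subset_inter_left _ inter_subset_right)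

section

variable {K X : Type u} [LinearOrder K] {U : Ultrafilter K} {V : Ultrafilter X}
  {f : Set K → Set X} {hm : ∀ A B, A ⊆ B → f A ⊆ f B} {h : X → K}

theorem mem_Gf {η : K} {t : Set K} {Q : Set X} :
    Q ∈ Gf U f hm h η t ↔ ∃ B, B ∈ U ∧ f (t ∪ {η} ∪ (B ∩ Ioi η)) ∩ h ⁻¹' {η} ⊆ Q := Iff.rfl

theorem Gf_local {η : K} {t : Set K} {Q Q' : Set X} (hQ : Q ∈ Gf U f hm h η t)
    (hQQ : ∀ x, h x = η → x ∈ Q → x ∈ Q') : Q' ∈ Gf U f hm h η t := by
  obtain ⟨B, hB, hB2⟩ := hQ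
  exact ⟨B, hB, fun x hx => hQQ x hx.2 (hB2 hx)⟩

theorem Gf_anti {η : K} {t t' : Set K} {Q : Set X} (ht : t' ⊆ t) (hQ : Q ∈ Gf U f hm h η t) :
    Q ∈ Gf U f hm h η t' := by
  obtain ⟨B, hB, hB2⟩ := hQ
  refine ⟨B, hB, (inter_subset_inter_left _ (hm _ _ ?_)).trans hB2⟩
  exact union_subset_union_left _ (union_subset_union_left _ ht)

variable [WellFoundedLT K]

theorem Gf_cpl (hU : Nm U) (η : K) (t : Set K) : Cpl #K (Gf U f hm h η t) := by
  intro ι s hι hs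
  choose B hB hB2 using hs
  refine ⟨⋂ i, B i, hU.cpl ι B hι hB, subset_iInter fun i => ?_⟩
  refine (inter_subset_inter_left _ (hm _ _ ?_)).trans (hB2 i)
  exact union_subset_union_right _ (inter_subset_inter_left _ (iInter_subset _ i))

theorem fact1 (hf : TR U V f) {Q : Set X} (hQ : Q ∈ V) :
    ∃ A, A ∈ U ∧ ∀ η ∈ A, Q ∈ Gf U f hm h η (A ∩ Iio η) := by
  obtain ⟨A, hA, hAQ⟩ := hf.cof Q hQ
  refine ⟨A, hA, fun η hη => ⟨A, hA, ?_⟩⟩
  have : A ∩ Iio η ∪ {η} ∪ A ∩ Ioi η ⊆ A := by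
    rintro x ((hx | hx) | hx)
    · exact hx.1
    · exact hx ▸ hη
    · exact hx.1
  exact inter_subset_left.trans ((hm _ _ this).trans hAQ)

theorem fact2 (hU : Nm U) (hf : TR U V f) (hsub : ∀ A x, x ∈ f A → h x ∈ A)
    {Q : Set X} {A : Set K} (hA : A ∈ U) (hQ : {η | Q ∈ Gf U f hm h η (A ∩ Iio η)} ∈ U) :
    Q ∈ V := by
  classical
  have h1 : ∀ η, ∃ B, B ∈ U ∧ (Q ∈ Gf U f hm h η (A ∩ Iio η) →
      f (A ∩ Iio η ∪ {η} ∪ (B ∩ Ioi η)) ∩ h ⁻¹' {η} ⊆ Q) := by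
    intro η
    by_cases hη : Q ∈ Gf U f hm h η (A ∩ Iio η)
    · obtain ⟨B, hB, hB2⟩ := hη
      exact ⟨B, hB, fun _ => hB2⟩
    · exact ⟨Set.univ, univ_mem, fun h => absurd h hη⟩
  choose B hB hB2 using h1
  have h2 : A ∩ {η | Q ∈ Gf U f hm h η (A ∩ Iio η)} ∩ {x | ∀ a < x, x ∈ B a} ∈ U :=
    inter_mem (inter_mem hA hQ) (hU.diag B hB)
  refine mem_of_superset (hf.mem _ h2) ?_
  intro x hx
  have h3 := hsub _ x hx
  refine hB2 (h x) h3.1.2 ⟨hm _ _ ?_ hx, rfl⟩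
  intro y hy
  rcases lt_trichotomy y (h x) with hlt | heq | hgt
  · exact Or.inl (Or.inl ⟨hy.1.1, hlt⟩)
  · exact Or.inl (Or.inr heq)
  · exact Or.inr ⟨hy.2 _ hgt, hgt⟩

theorem Nm.infinite_mem (hU : Nm U) : {η : K | Infinite (Iio η)} ∈ U := by
  by_contra hcon
  have h1 := Ultrafilter.compl_mem_iff_notMem.2 hcon
  obtain ⟨n, hn⟩ := hU.cpl.exists_const (ι := ULift.{u} ℕ) (by simpa using hU.unc)
    (fun η => ⟨Nat.card (Iio η)⟩)
  have h2 := inter_mem h1 hn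
  have h3 : ∀ a b : K, a < b → a ∈ {η : K | Infinite (Iio η)}ᶜ ∩
      {x | (fun η => (⟨Nat.card (Iio η)⟩ : ULift.{u} ℕ)) x = n} →
      b ∈ {η : K | Infinite (Iio η)}ᶜ ∩
      {x | (fun η => (⟨Nat.card (Iio η)⟩ : ULift.{u} ℕ)) x = n} → False := by
    rintro a b hab ⟨ha, ha2⟩ ⟨hb, hb2⟩
    have hbf : Finite (Iio b) := not_infinite_iff_finite.1 hb
    have h4 : Nat.card (Iio a) < Nat.card (Iio b) := by
      rw [Nat.card_coe_set_eq, Nat.card_coe_set_eq]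
      refine ncard_lt_ncard ?_ (toFinite _)
      exact ⟨fun x hx => lt_trans hx hab, fun hsub => lt_irrefl a (hsub hab)⟩
    have h5 : (⟨Nat.card (Iio a)⟩ : ULift.{u} ℕ) = ⟨Nat.card (Iio b)⟩ := by
      have e1 : (⟨Nat.card (Iio a)⟩ : ULift.{u} ℕ) = n := ha2
      have e2 : (⟨Nat.card (Iio b)⟩ : ULift.{u} ℕ) = n := hb2
      rw [e1, e2]
    exact h4.ne (congrArg ULift.down h5)
  obtain ⟨x, hx⟩ := U.nonempty_of_mem h2
  refine hU.no_small ⟨x, mem_of_superset h2 ?_⟩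
  intro y hy
  rcases lt_trichotomy x y with hlt | heq | hgt
  · exact (h3 x y hlt hx hy).elim
  · exact heq.symm
  · exact (h3 y x hgt hy hx).elim

theorem decomp_aux (hU : Nm U) (hf : TR U V f) (hh : V.map h = U)
    (hs : ∀ r : X → K, {x | r x < h x} ∈ V → ∃ a, {x | r x = a} ∈ V)
    (hsub : ∀ A x, x ∈ f A → h x ∈ A) :
    ∃ W : K → Ultrafilter X, V = U.bind W ∧
      {η | h ⁻¹' {η} ∈ W η ∧ ∃ g, TR U (W η) g} ∈ U := by
  classical
  have hm : ∀ A B, A ⊆ B → f A ⊆ f B := hf.mono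
  let T : K → Type u := fun η => (Order.succ #(Set (Iio η))).ord.ToType
  have hTc : ∀ η, #(T η) = Order.succ #(Set (Iio η)) := fun η => by
    rw [Cardinal.mk_toType, card_ord]
  have hTK : ∀ η, #(T η) < #K := by
    intro η
    rw [hTc]
    refine lt_of_le_of_lt (Order.succ_le_of_lt (cantor _)) ?_
    exact hU.two_pow' (hU.two_pow (hU.ini η))
  -- splitting sets
  let Bad : (η : K) → Set (Set (Iio η)) := fun η =>
    {t | ∃ u : X → T η, ∀ i, (u ⁻¹' {i})ᶜ ∉ Gf U f hm h η (Subtype.val '' t)}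
  have hQ0 : ∀ η, ∃ Q : Set X, Infinite (Iio η) → ∀ t ∈ Bad η,
      Q ∉ Gf U f hm h η (Subtype.val '' t) ∧ Qᶜ ∉ Gf U f hm h η (Subtype.val '' t) := by
    intro η
    by_cases hη : Infinite (Iio η)
    · choose u hu using fun t : Bad η => t.2
      have h1 : #(Bad η × Bool) < #(T η) := by
        have e : #(Bad η × Bool) = #(Bad η) * 2 := by simp [mk_prod]
        rw [hTc, Order.lt_succ_iff, e]
        refine mul_le_of_le (aleph0_le_mk _) (mk_set_le _) ?_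
        exact (nat_lt_aleph0 2).le.trans (aleph0_le_mk _)
      have h2 : #(Bad η → T η) < #K := by
        rw [← power_def]
        exact hU.power_lt (hTK η) ((mk_set_le _).trans_lt (hU.two_pow (hU.ini η)))
      obtain ⟨Q, hQ⟩ := bern (κ := #K) (fun t : Bad η => Gf U f hm h η (Subtype.val '' t.1))
        (fun t => Gf_cpl hU _ _) h1 h2 u hu
      exact ⟨Q, fun _ t ht => hQ ⟨t, ht⟩⟩
    · exact ⟨∅, fun h => absurd h hη⟩
  choose Q0 hQ0 using hQ0
  have hA0 : ∃ A, A ∈ U ∧ ∀ η ∈ A, Infinite (Iio η) →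
      (Subtype.val ⁻¹' A : Set (Iio η)) ∉ Bad η := by
    have himg : ∀ (A : Set K) (η : K),
        (Subtype.val '' (Subtype.val ⁻¹' A : Set (Iio η)) : Set K) = A ∩ Iio η := by
      intro A η
      rw [Subtype.image_preimage_coe, inter_comm]
    by_cases hQV : {x | x ∈ Q0 (h x)} ∈ V
    · obtain ⟨A, hA, hA2⟩ := fact1 (hm := hm) (h := h) hf hQV
      refine ⟨A, hA, fun η hη hinf hbad => ?_⟩
      have h1 := (hQ0 η hinf _ hbad).1
      rw [himg] at h1
      refine h1 (Gf_local (hA2 η hη) ?_)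
      intro x hx hx2
      have : x ∈ Q0 (h x) := hx2
      rwa [hx] at this
    · have hQV' := Ultrafilter.compl_mem_iff_notMem.2 hQV
      obtain ⟨A, hA, hA2⟩ := fact1 (hm := hm) (h := h) hf hQV'
      refine ⟨A, hA, fun η hη hinf hbad => ?_⟩
      have h1 := (hQ0 η hinf _ hbad).2
      rw [himg] at h1
      refine h1 (Gf_local (hA2 η hη) ?_)
      intro x hx hx2 hx3
      apply hx2
      have : x ∈ Q0 (h x) := by rwa [hx]
      exact this
  obtain ⟨A, hA, hAbad⟩ := hA0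
  -- atoms
  have hat : ∀ η, ∃ Z : Set (Iio η) → Set X, η ∈ A → Infinite (Iio η) →
      (∀ s t x, x ∈ Z s → x ∈ Z t → s = t) ∧
      (∀ s, (Z s).Nonempty → Atom (Gf U f hm h η (A ∩ Iio η)) (Z s)) ∧
      (⋃ s, Z s) ∈ Gf U f hm h η (A ∩ Iio η) := by
    intro η
    by_cases hη : η ∈ A ∧ Infinite (Iio η)
    · have := hη.2
      have h1 := hAbad η hη.1 hη.2
      have h2 : ¬ ∃ u : X → T η, ∀ i, (u ⁻¹' {i})ᶜ ∉ Gf U f hm h η (A ∩ Iio η) := by
        intro h3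
        apply h1
        have himg : (Subtype.val '' (Subtype.val ⁻¹' A : Set (Iio η)) : Set K) = A ∩ Iio η := by
          rw [Subtype.image_preimage_coe, inter_comm]
        have h4 : ∃ u : X → T η, ∀ i, (u ⁻¹' {i})ᶜ ∉
            Gf U f hm h η (Subtype.val '' (Subtype.val ⁻¹' A : Set (Iio η))) := by
          rw [himg]; exact h3
        exact h4
      obtain ⟨Z, hZ⟩ := atoms (κ := #K) (I := Iio η) (Gf_cpl hU η (A ∩ Iio η))
        (hU.two_pow (hTK η)) h2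
      exact ⟨Z, fun _ _ => hZ⟩
    · exact ⟨fun _ => ∅, fun h1 h2 => absurd ⟨h1, h2⟩ hη⟩
  choose Z hZ using hat
  have hgood : A ∩ {η : K | Infinite (Iio η)} ∈ U := inter_mem hA hU.infinite_mem
  have hY : {x | ∃ s, x ∈ Z (h x) s} ∈ V := by
    refine fact2 (hm := hm) hU hf hsub hA (mem_of_superset hgood ?_)
    rintro η ⟨hη, hη2⟩
    refine Gf_local (hZ η hη hη2).2.2 ?_
    intro x hx hx2
    obtain ⟨s, hs⟩ := mem_iUnion.1 hx2
    subst hx
    exact ⟨s, hs⟩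
  -- the index function
  let r : X → Set K := fun x => {k | ∃ s : Set (Iio (h x)), x ∈ Z (h x) s ∧ k ∈ Subtype.val '' s}
  obtain ⟨R, hR⟩ := reflect (V := V) hs r (mem_of_superset univ_mem (by
    rintro x - k ⟨s, -, ⟨k', -, rfl⟩⟩
    exact k'.2))
  let Zd : K → Set X := fun η => Z η (Subtype.val ⁻¹' R)
  have hhA : h ⁻¹' (A ∩ {η : K | Infinite (Iio η)}) ∈ V := by
    have : A ∩ {η : K | Infinite (Iio η)} ∈ V.map h := by rw [hh]; exact hgood
    exact this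
  have hZd : {x | x ∈ Zd (h x)} ∈ V := by
    refine mem_of_superset (inter_mem (inter_mem hhA hY) hR) ?_
    rintro x ⟨⟨⟨hxA, hxI⟩, s, hs⟩, hxR⟩
    have h1 : r x = R ∩ Iio (h x) := hxR
    have h2 : r x = Subtype.val '' s := by
      ext k
      constructor
      · rintro ⟨s', hs', hk⟩
        rwa [(hZ (h x) hxA hxI).1 s s' x hs hs']
      · intro hk
        exact ⟨s, hs, hk⟩
    have h3 : s = Subtype.val ⁻¹' R := by
      ext k
      constructor
      · intro hk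
        have : (k : K) ∈ r x := by rw [h2]; exact ⟨k, hk, rfl⟩
        rw [h1] at this
        exact this.1
      · intro hk
        have : (k : K) ∈ r x := by rw [h1]; exact ⟨hk, k.2⟩
        rw [h2] at this
        obtain ⟨k', hk', hkk⟩ := this
        rwa [← Subtype.ext hkk]
    have h4 : x ∈ Z (h x) (Subtype.val ⁻¹' R) := by rwa [← h3]
    exact h4
  have hne : {η | (Zd η).Nonempty} ∈ U := by
    rw [← hh]
    have : h ⁻¹' {η | (Zd η).Nonempty} ∈ V :=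
      mem_of_superset hZd fun x hx => ⟨x, hx⟩
    exact this
  have hW0 : ∀ η, ∃ W : Ultrafilter X,
      η ∈ A ∩ {η : K | Infinite (Iio η)} ∩ {η | (Zd η).Nonempty} →
        (Atom (Gf U f hm h η (A ∩ Iio η)) (Zd η) ∧
          ∀ Q, Q ∈ W ↔ (Zd η \ Q)ᶜ ∈ Gf U f hm h η (A ∩ Iio η)) := by
    intro η
    by_cases hη : η ∈ A ∩ {η : K | Infinite (Iio η)} ∩ {η | (Zd η).Nonempty}
    · have h1 : Atom (Gf U f hm h η (A ∩ Iio η)) (Zd η) := (hZ η hη.1.1 hη.1.2).2.1 _ hη.2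
      obtain ⟨W, hW⟩ := h1.exists_uf
      exact ⟨W, fun _ => ⟨h1, hW⟩⟩
    · exact ⟨V, fun h => absurd h hη⟩
  choose W hW using hW0
  have hgood2 : A ∩ {η : K | Infinite (Iio η)} ∩ {η | (Zd η).Nonempty} ∈ U :=
    inter_mem hgood hne
  refine ⟨W, ?_, ?_⟩
  · refine uf_eq_of_forall fun Q hQ => ?_
    have : {η | Q ∈ W η} ∈ U := by
      by_contra hcon
      have h1 := Ultrafilter.compl_mem_iff_notMem.2 hcon
      have h2 : {x | ¬ (x ∈ Zd (h x) ∧ x ∈ Q)} ∈ V := by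
        refine fact2 (hm := hm) hU hf hsub hA (mem_of_superset (inter_mem hgood2 h1) ?_)
        rintro η ⟨hη, hη2⟩
        have h3 : Q ∉ W η := hη2
        have h4 := hW η hη
        rw [h4.2 Q] at h3
        have h5 := (h4.1.2 Q).resolve_right h3
        refine Gf_local h5 ?_
        rintro x hx hx2 ⟨hx3, hx4⟩
        apply hx2
        rw [hx] at hx3
        exact ⟨hx3, hx4⟩
      obtain ⟨x, hx⟩ := V.nonempty_of_mem (inter_mem (inter_mem hZd hQ) h2)
      exact hx.2 hx.1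
    exact this
  · refine mem_of_superset hgood2 ?_
    intro η hη
    obtain ⟨h1, h2⟩ := hW η hη
    refine ⟨?_, ?_⟩
    · rw [h2]
      refine ⟨Set.univ, univ_mem, ?_⟩
      rintro x ⟨-, hx⟩ ⟨-, hx2⟩
      exact hx2 hx
    · refine ⟨fun B => f (A ∩ Iio η ∪ {η} ∪ (B ∩ Ioi η)) ∩ h ⁻¹' {η} ∩ Zd η, ?_, ?_, ?_⟩
      · intro B B' hBB
        refine inter_subset_inter_left _ (inter_subset_inter_left _ (hm _ _ ?_))
        exact union_subset_union_right _ (inter_subset_inter_left _ hBB)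
      · intro B hB
        rw [h2]
        refine ⟨B, hB, ?_⟩
        rintro x hx ⟨hxZ, hx2⟩
        exact hx2 ⟨hx, hxZ⟩
      · intro Q hQ
        rw [h2] at hQ
        obtain ⟨B, hB, hB2⟩ := hQ
        refine ⟨B, hB, ?_⟩
        rintro x ⟨hx, hxZ⟩
        by_contra hxQ
        exact hB2 hx ⟨hxZ, hxQ⟩

theorem decomp (hU : Nm U) (hf : TR U V f) (hh : V.map h = U)
    (hs : ∀ r : X → K, {x | r x < h x} ∈ V → ∃ a, {x | r x = a} ∈ V) :
    ∃ W : K → Ultrafilter X, V = U.bind W ∧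
      {η | h ⁻¹' {η} ∈ W η ∧ ∃ g, TR U (W η) g} ∈ U := by
  have hf' : TR U V (fun A => f A ∩ h ⁻¹' A) := by
    refine ⟨fun A B hAB => inter_subset_inter (hf.mono _ _ hAB) (preimage_mono hAB), ?_, ?_⟩
    · intro A hA
      refine inter_mem (hf.mem A hA) ?_
      have : A ∈ V.map h := by rw [hh]; exact hA
      exact this
    · intro Q hQ
      obtain ⟨A, hA, hAQ⟩ := hf.cof Q hQ
      exact ⟨A, hA, inter_subset_left.trans hAQ⟩
  exact decomp_aux hU hf' hh hs (fun A x hx => hx.2)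

end

end Pool.Agent.W866.Tk
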