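import Pool.Agent.W866.Tk4

/-! The dichotomy for ultrafilters Tukey below a normal ultrafilter. -/

set_option autoImplicit false

namespace Pool.Agent.W866.Tk

open Cardinal Set Filter

universe u

/-- The Fubini powers of `U`, on finite sequences. -/
def pow {K : Type u} (U : Ultrafilter K) (n : ℕ) : Ultrafilter (List K) :=
  Nat.iterate
    (fun W : Ultrafilter (List K) => U.bind (fun a => Ultrafilter.map (List.cons a) W))
    n (pure ([] : List K) : Ultrafilter (List K))

section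

variable {K X : Type u} {U : Ultrafilter K} {V : Ultrafilter X}

theorem pow_succ' (n : ℕ) :
    pow U (n+1) = U.bind (fun a => Ultrafilter.map (List.cons a) (pow U n)) :=
  Function.iterate_succ_apply' _ _ _

theorem mem_pow_succ {n : ℕ} {S : Set (List K)} :
    S ∈ pow U (n+1) ↔ {a | {l | a :: l ∈ S} ∈ pow U n} ∈ U := by
  rw [pow_succ']
  exact Iff.rfl

theorem mem_pow_zero {S : Set (List K)} : S ∈ pow U 0 ↔ [] ∈ S := Iff.rfl

theorem map_congr' {Y : Type u} {φ ψ : X → Y} (h : {x | φ x = ψ x} ∈ V) :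
    V.map φ = V.map ψ := by
  refine uf_eq_of_forall fun s hs => ?_
  have h1 : φ ⁻¹' s ∈ V := hs
  have h2 : ψ ⁻¹' s ∈ V := by
    refine mem_of_superset (inter_mem h h1) ?_
    rintro x ⟨hx, hx2⟩
    have h3 : φ x = ψ x := hx
    have h4 : φ x ∈ s := hx2
    rw [h3] at h4
    exact h4
  exact h2

theorem bind_congr' {Y : Type u} {m m' : K → Ultrafilter Y} (h : {a | m a = m' a} ∈ U) :
    U.bind m = U.bind m' := by
  refine uf_eq_of_forall fun s hs => ?_
  have h1 : {a | s ∈ m a} ∈ U := hs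
  have h2 : {a | s ∈ m' a} ∈ U := by
    refine mem_of_superset (inter_mem h h1) ?_
    rintro x ⟨hx, hx2⟩
    have h3 : m x = m' x := hx
    have h4 : s ∈ m x := hx2
    rw [h3] at h4
    exact h4
  exact h2

theorem map_bind' {Y Z : Type u} {m : K → Ultrafilter Y} (φ : Y → Z) :
    (U.bind m).map φ = U.bind (fun a => (m a).map φ) :=
  Ultrafilter.ext fun _ => Iff.rfl

/-- Rudin–Keisler equivalence with the `n`-th Fubini power. -/
def RKeq (U : Ultrafilter K) (n : ℕ) (V : Ultrafilter X) : Prop :=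
  (∃ φ : List K → X, (pow U n).map φ = V) ∧ ∃ ψ : X → List K, V.map ψ = pow U n

theorem RKeq.step {n : ℕ} {h : X → K} {W : K → Ultrafilter X} (hVW : V = U.bind W)
    (hW : {η | h ⁻¹' {η} ∈ W η ∧ RKeq U n (W η)} ∈ U) : RKeq U (n+1) V := by
  classical
  have h1 : ∀ η, ∃ φ : List K → X, ∃ ψ : X → List K, η ∈ {η | h ⁻¹' {η} ∈ W η ∧ RKeq U n (W η)} →
      (pow U n).map φ = W η ∧ (W η).map ψ = pow U n := by
    intro η
    by_cases hη : η ∈ {η | h ⁻¹' {η} ∈ W η ∧ RKeq U n (W η)}
    · obtain ⟨-, ⟨φ, hφ⟩, ψ, hψ⟩ := hη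
      exact ⟨φ, ψ, fun _ => ⟨hφ, hψ⟩⟩
    · obtain ⟨x, -⟩ := V.nonempty_of_mem univ_mem
      exact ⟨fun _ => x, fun _ => [], fun h => absurd h hη⟩
  choose φ ψ hφψ using h1
  obtain ⟨x₀, -⟩ := V.nonempty_of_mem univ_mem
  refine ⟨⟨fun l => match l with
    | [] => x₀
    | η :: s => φ η s, ?_⟩, ⟨fun x => h x :: ψ (h x) x, ?_⟩⟩
  · rw [pow_succ', map_bind', hVW]
    apply bind_congr'
    refine mem_of_superset hW fun η hη => ?_
    exact (hφψ η hη).1
  · rw [pow_succ', hVW, map_bind']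
    apply bind_congr'
    refine mem_of_superset hW fun η hη => ?_
    have h2 : (W η).map (fun x => h x :: ψ (h x) x) = (W η).map (fun x => η :: ψ η x) := by
      apply map_congr'
      refine mem_of_superset hη.1 fun x hx => ?_
      have h3 : h x = η := hx
      show h x :: ψ (h x) x = η :: ψ η x
      rw [h3]
    have h4 : (W η).map (fun x => η :: ψ η x) = ((W η).map (ψ η)).map (List.cons η) := rfl
    show (W η).map (fun x => h x :: ψ (h x) x) = (pow U n).map (List.cons η)
    rw [h2, h4, (hφψ η hη).2]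

theorem RKeq.zero {x : X} (hx : ({x} : Set X) ∈ V) : RKeq U 0 V := by
  refine ⟨⟨fun _ => x, ?_⟩, ⟨fun _ => [], ?_⟩⟩
  · refine (uf_eq_of_forall fun s hs => ?_).symm
    obtain ⟨y, hy, hy2⟩ := V.nonempty_of_mem (inter_mem hx hs)
    have h1 : y = x := hy
    rw [h1] at hy2
    exact hy2
  · refine (uf_eq_of_forall fun s hs => ?_).symm
    have h1 : [] ∈ s := hs
    have h2 : (fun _ : X => ([] : List K)) ⁻¹' s ∈ V :=
      mem_of_superset univ_mem fun _ _ => h1
    exact h2

/-- One step of the decomposition: `h` and `W` as in `decomp`. -/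
def Stp (U : Ultrafilter K) (V : Ultrafilter X) (h : X → K) (W : K → Ultrafilter X) : Prop :=
  V = U.bind W ∧ {η | h ⁻¹' {η} ∈ W η ∧ ∃ g, TR U (W η) g} ∈ U

theorem exists_stp [LinearOrder K] [WellFoundedLT K] (hU : Nm U) (hf : ∃ f, TR U V f)
    (hV : ¬ ∃ x, ({x} : Set X) ∈ V) : ∃ h W, Stp U V h W := by
  obtain ⟨f, hf⟩ := hf
  obtain ⟨h, hh, hs⟩ := exists_seed' hU hf hV
  obtain ⟨W, hW, hW2⟩ := decomp hU hf hh hs
  exact ⟨h, W, hW, hW2⟩

/-- `V` can be decomposed `n` times with the decomposition functions `hd`, `tl`. -/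
def Dn (U : Ultrafilter K) (hd : Ultrafilter X → X → K) (tl : Ultrafilter X → K → Ultrafilter X) :
    ℕ → Ultrafilter X → Prop
  | 0, _ => True
  | n+1, V => V = U.bind (tl V) ∧ {η | hd V ⁻¹' {η} ∈ tl V η ∧ Dn U hd tl n (tl V η)} ∈ U

/-- The sequence attached to a point. -/
def Hs (hd : Ultrafilter X → X → K) (tl : Ultrafilter X → K → Ultrafilter X) :
    ℕ → Ultrafilter X → X → K
  | 0, V, x => hd V x
  | n+1, V, x => Hs hd tl n (tl V (hd V x)) x

variable {hd : Ultrafilter X → X → K} {tl : Ultrafilter X → K → Ultrafilter X}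

theorem Hs_map (n : ℕ) : ∀ V : Ultrafilter X, Dn U hd tl n V →
    V.map (fun x => List.ofFn (fun i : Fin n => Hs hd tl i V x)) = pow U n := by
  induction n with
  | zero =>
    intro V _
    refine (uf_eq_of_forall fun s hs => ?_).symm
    have h1 : [] ∈ s := hs
    have h2 : (fun x => List.ofFn (fun i : Fin 0 => Hs hd tl i V x)) ⁻¹' s ∈ V := by
      refine mem_of_superset univ_mem fun x _ => ?_
      show List.ofFn (fun i : Fin 0 => Hs hd tl i V x) ∈ s
      rw [List.ofFn_zero]
      exact h1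
    exact h2
  | succ n ih =>
    rintro V ⟨hV1, hV2⟩
    have h0 : V.map (fun x => List.ofFn (fun i : Fin (n+1) => Hs hd tl i V x)) =
        (U.bind (tl V)).map (fun x => List.ofFn (fun i : Fin (n+1) => Hs hd tl i V x)) := by
      rw [← hV1]
    rw [h0, pow_succ', map_bind']
    apply bind_congr'
    refine mem_of_superset hV2 ?_
    rintro η ⟨hη, hη2⟩
    have h1 : (tl V η).map (fun x => List.ofFn (fun i : Fin (n+1) => Hs hd tl i V x)) =
        (tl V η).map (fun x => η :: List.ofFn (fun i : Fin n => Hs hd tl i (tl V η) x)) := by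
      apply map_congr'
      refine mem_of_superset hη fun x hx => ?_
      have h3 : hd V x = η := hx
      show List.ofFn (fun i : Fin (n+1) => Hs hd tl i V x) =
        η :: List.ofFn (fun i : Fin n => Hs hd tl i (tl V η) x)
      rw [List.ofFn_succ]
      have h4 : Hs hd tl ((0 : Fin (n+1)) : ℕ) V x = η := h3
      have h5 : (fun i : Fin n => Hs hd tl (i.succ : Fin (n+1)) V x) =
          fun i : Fin n => Hs hd tl i (tl V η) x := by
        funext i
        rw [Fin.val_succ]
        show Hs hd tl i (tl V (hd V x)) x = _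
        rw [h3]
      rw [h4, h5]
    show (tl V η).map (fun x => List.ofFn (fun i : Fin (n+1) => Hs hd tl i V x)) =
      (pow U n).map (List.cons η)
    rw [h1, ← ih _ hη2]
    rfl

theorem dich_aux [LinearOrder K] [WellFoundedLT K] (hU : Nm U)
    (hht : ∀ V : Ultrafilter X, (∃ f, TR U V f) → (¬ ∃ x, ({x} : Set X) ∈ V) →
      Stp U V (hd V) (tl V)) (n : ℕ) : ∀ V : Ultrafilter X, (∃ f, TR U V f) →
      (∃ m, m < n ∧ RKeq U m V) ∨ Dn U hd tl n V := by
  induction n with
  | zero => exact fun V _ => Or.inr trivial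
  | succ n ih =>
    intro V hV
    by_cases hp : ∃ x, ({x} : Set X) ∈ V
    · obtain ⟨x, hx⟩ := hp
      exact Or.inl ⟨0, Nat.succ_pos n, RKeq.zero hx⟩
    · obtain ⟨h1, h2⟩ := hht V hV hp
      by_cases h3 : {η | Dn U hd tl n (tl V η)} ∈ U
      · right
        refine ⟨h1, mem_of_superset (inter_mem h2 h3) ?_⟩
        rintro η ⟨hη, hη2⟩
        exact ⟨hη.1, hη2⟩
      · left
        have h4 := Ultrafilter.compl_mem_iff_notMem.2 h3
        have h5 := inter_mem h2 h4
        have h6 : ∀ η, η ∈ {η | hd V ⁻¹' {η} ∈ tl V η ∧ ∃ g, TR U (tl V η) g} ∩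
            {η | Dn U hd tl n (tl V η)}ᶜ → ∃ m, m < n ∧ RKeq U m (tl V η) := by
          rintro η ⟨hη, hη2⟩
          exact (ih _ hη.2).resolve_right hη2
        choose! m hm hm2 using h6
        obtain ⟨k, hk⟩ := hU.cpl.exists_const (ι := ULift.{u} ℕ) (by simpa using hU.unc)
          (fun η => ⟨m η⟩)
        have h7 := inter_mem h5 hk
        obtain ⟨η, hη⟩ := U.nonempty_of_mem h7
        have h8 : ∀ η, η ∈ {x | (fun η => (⟨m η⟩ : ULift.{u} ℕ)) x = k} → m η = k.down := by
          intro η hη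
          exact congrArg ULift.down hη
        refine ⟨k.down + 1, ?_, ?_⟩
        · have := hm η hη.1
          rw [h8 η hη.2] at this
          exact Nat.succ_lt_succ this
        · refine RKeq.step (h := hd V) h1 (mem_of_superset h7 ?_)
          rintro η ⟨hη, hη2⟩
          refine ⟨hη.1.1, ?_⟩
          have := hm2 η hη
          rwa [h8 η hη2] at this

theorem dich [LinearOrder K] [WellFoundedLT K] (hU : Nm U) (hf : ∃ f, TR U V f)
    (hn : ∀ n, ¬ RKeq U n V) :
    ∃ h : X → ℕ → K, ∀ n, V.map (fun x => List.ofFn (fun i : Fin n => h x i)) = pow U n := by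
  classical
  have h1 : ∀ V : Ultrafilter X, ∃ h : X → K, ∃ W : K → Ultrafilter X, (∃ f, TR U V f) →
      (¬ ∃ x, ({x} : Set X) ∈ V) → Stp U V h W := by
    intro V
    by_cases h1 : ∃ f, TR U V f
    · by_cases h2 : ∃ x, ({x} : Set X) ∈ V
      · obtain ⟨k, -⟩ := U.nonempty_of_mem univ_mem
        exact ⟨fun _ => k, fun _ => V, fun _ h => absurd h2 h⟩
      · obtain ⟨h, W, hW⟩ := exists_stp hU h1 h2
        exact ⟨h, W, fun _ _ => hW⟩
    · obtain ⟨k, -⟩ := U.nonempty_of_mem univ_mem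
      exact ⟨fun _ => k, fun _ => V, fun h => absurd h h1⟩
  choose hd tl hht using h1
  refine ⟨fun x n => Hs hd tl n V x, fun n => ?_⟩
  have h2 := dich_aux hU hht n V hf
  rcases h2 with ⟨m, -, hm⟩ | h2
  · exact absurd hm (hn m)
  · exact Hs_map n V h2

end

end Pool.Agent.W866.Tk
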